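import Pool.Agent.H58.LM.Stm

/-!
AFF: the inequality is invariant under affine maps.
-/

set_option autoImplicit false

open MeasureTheory Set Filter
open scoped ENNReal Topology

namespace Pool.Agent.H58.LM.T.AFF

open Pool.Agent.H58.LM

/-- the transposed map -/
theorem tr_exists {n : ℕ} (A : (Fin n → ℝ) ≃L[ℝ] (Fin n → ℝ)) :
    ∃ B : (Fin n → ℝ) →L[ℝ] (Fin n → ℝ), Function.Bijective B ∧
      B.det = (A : (Fin n → ℝ) →L[ℝ] (Fin n → ℝ)).det ∧
      ∀ x y : Fin n → ℝ, ∑ i, A x i * y i = ∑ i, x i * B y i := by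
  set M := LinearMap.toMatrix' (A.toLinearEquiv : (Fin n → ℝ) →ₗ[ℝ] (Fin n → ℝ)) with hM
  set f : (Fin n → ℝ) →ₗ[ℝ] (Fin n → ℝ) := Matrix.toLin' M.transpose with hf
  have hdet : LinearMap.det f
      = LinearMap.det (A.toLinearEquiv : (Fin n → ℝ) →ₗ[ℝ] (Fin n → ℝ)) := by
    rw [hf, LinearMap.det_toLin', Matrix.det_transpose, hM, LinearMap.det_toMatrix']
  have hne : LinearMap.det f ≠ 0 := by
    rw [hdet]
    exact (LinearEquiv.isUnit_det' A.toLinearEquiv).ne_zero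
  refine ⟨LinearMap.toContinuousLinearMap f, ?_, ?_, ?_⟩
  · exact (LinearMap.equivOfDetNeZero f hne).bijective
  · rw [ContinuousLinearMap.det, ContinuousLinearMap.det]
    exact hdet
  · intro x y
    have h1 : A x = M.mulVec x := by
      have h2 : Matrix.toLin' M = (A.toLinearEquiv : (Fin n → ℝ) →ₗ[ℝ] (Fin n → ℝ)) := by
        rw [hM, Matrix.toLin'_toMatrix']
      rw [← Matrix.toLin'_apply, h2]
      rfl
    have h2 : (LinearMap.toContinuousLinearMap f) y = M.transpose.mulVec y := by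
      change f y = _
      rw [hf, Matrix.toLin'_apply]
    rw [h1, h2]
    change (M.mulVec x) ⬝ᵥ y = x ⬝ᵥ (M.transpose.mulVec y)
    rw [Matrix.mulVec_transpose, dotProduct_comm, Matrix.dotProduct_mulVec, dotProduct_comm]

theorem det_ne {n : ℕ} (A : (Fin n → ℝ) ≃L[ℝ] (Fin n → ℝ)) :
    (A : (Fin n → ℝ) →L[ℝ] (Fin n → ℝ)).det ≠ 0 :=
  (LinearEquiv.isUnit_det' A.toLinearEquiv).ne_zero

/-- change of variables -/
theorem lint_T {n : ℕ} (A : (Fin n → ℝ) ≃L[ℝ] (Fin n → ℝ)) (a : Fin n → ℝ) (K : Set (Fin n → ℝ))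
    (hK : MeasurableSet K) (g : (Fin n → ℝ) → ℝ≥0∞) :
    ∫⁻ x in (fun x => A x + a) '' K, g x
      = ENNReal.ofReal |(A : (Fin n → ℝ) →L[ℝ] (Fin n → ℝ)).det| * ∫⁻ x in K, g (A x + a) := by
  have h1 := lintegral_image_eq_lintegral_abs_det_fderiv_mul volume hK
    (f := fun x => A x + a) (f' := fun _ => (A : (Fin n → ℝ) →L[ℝ] (Fin n → ℝ)))
    (fun x _ => ((A : (Fin n → ℝ) →L[ℝ] (Fin n → ℝ)).hasFDerivWithinAt).add_const a)
    (fun x _ y _ hxy => A.injective (add_right_cancel hxy)) g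
  rw [h1, lintegral_const_mul' _ _ ENNReal.ofReal_ne_top]

theorem vol_T {n : ℕ} (A : (Fin n → ℝ) ≃L[ℝ] (Fin n → ℝ)) (a : Fin n → ℝ) (K : Set (Fin n → ℝ))
    (hK : MeasurableSet K) : volume ((fun x => A x + a) '' K)
      = ENNReal.ofReal |(A : (Fin n → ℝ) →L[ℝ] (Fin n → ℝ)).det| * volume K := by
  have h1 := lint_T A a K hK (fun _ => 1)
  simpa using h1

theorem main : S_AFF := by
  intro p hp n A a K hK hG ξ
  obtain ⟨B, hBb, hBd, hB⟩ := tr_exists A
  set d : ℝ≥0∞ := ENNReal.ofReal |(A : (Fin n → ℝ) →L[ℝ] (Fin n → ℝ)).det| with hd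
  have hd0 : d ≠ 0 := by
    rw [hd, Ne, ENNReal.ofReal_eq_zero, not_le]
    exact abs_pos.2 (det_ne A)
  have hdt : d ≠ ∞ := ENNReal.ofReal_ne_top
  set η : Fin n → ℝ := A.symm (ξ - a) with hη
  -- the Laplace transform
  have hJ : ∀ y, Jn p ((fun x => A x + a) '' K) y
      = d * (ENNReal.ofReal (Real.exp (p * ∑ i, a i * y i)) * Jn p K (B y)) := by
    intro y
    unfold Jn
    rw [lint_T A a K hK, ← hd]
    congr 1
    rw [← lintegral_const_mul' _ _ ENNReal.ofReal_ne_top]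
    refine lintegral_congr fun x => ?_
    rw [← ENNReal.ofReal_mul (Real.exp_pos _).le, ← Real.exp_add]
    congr 2
    rw [← mul_add]
    congr 1
    rw [← hB x y, ← Finset.sum_add_distrib]
    refine Finset.sum_congr rfl fun i _ => ?_
    change (A x i + a i) * y i = _
    ring
  have hp' : 0 < 1 / p := by positivity
  -- the integral
  have hI : In p ((fun x => A x + a) '' K) ξ = (d ^ (1 / p))⁻¹ * (d⁻¹ * In p K η) := by
    have h1 : In p K η = d * ∫⁻ y, ENNReal.ofReal (Real.exp (∑ i, η i * B y i)) *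
        ((Jn p K (B y)) ^ (1 / p))⁻¹ := by
      unfold In
      have h2 := lintegral_image_eq_lintegral_abs_det_fderiv_mul volume MeasurableSet.univ
        (f := B) (f' := fun _ => B) (fun x _ => B.hasFDerivWithinAt)
        (fun x _ y _ hxy => hBb.1 hxy)
        (fun y => ENNReal.ofReal (Real.exp (∑ i, η i * y i)) * ((Jn p K y) ^ (1 / p))⁻¹)
      rw [image_univ, hBb.2.range_eq, Measure.restrict_univ] at h2
      rw [h2, lintegral_const_mul' _ _ ENNReal.ofReal_ne_top, hBd]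
    rw [h1, ← mul_assoc d⁻¹, ENNReal.inv_mul_cancel hd0 hdt, one_mul]
    unfold In
    rw [← lintegral_const_mul' _ _ (ENNReal.inv_ne_top.2
      (ENNReal.rpow_pos (pos_iff_ne_zero.2 hd0) hdt).ne')]
    refine lintegral_congr fun y => ?_
    rw [hJ y]
    have he0 : ENNReal.ofReal (Real.exp (p * ∑ i, a i * y i)) ≠ 0 := by
      rw [Ne, ENNReal.ofReal_eq_zero, not_le]
      exact Real.exp_pos _
    have he : (ENNReal.ofReal (Real.exp (p * ∑ i, a i * y i))) ^ (1 / p)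
        = ENNReal.ofReal (Real.exp (∑ i, a i * y i)) := by
      rw [ENNReal.ofReal_rpow_of_pos (Real.exp_pos _), ← Real.exp_mul]
      congr 2
      field_simp
    rw [ENNReal.mul_rpow_of_nonneg _ _ hp'.le, ENNReal.mul_rpow_of_nonneg _ _ hp'.le, he]
    have hA0 : d ^ (1 / p) ≠ 0 := (ENNReal.rpow_pos (pos_iff_ne_zero.2 hd0) hdt).ne'
    have hAt : d ^ (1 / p) ≠ ∞ := ENNReal.rpow_ne_top_of_nonneg hp'.le hdt
    have hE0 : ENNReal.ofReal (Real.exp (∑ i, a i * y i)) ≠ 0 := by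
      rw [Ne, ENNReal.ofReal_eq_zero, not_le]
      exact Real.exp_pos _
    rw [ENNReal.mul_inv (Or.inl hA0) (Or.inl hAt),
      ENNReal.mul_inv (Or.inl hE0) (Or.inl ENNReal.ofReal_ne_top)]
    have hexp : ENNReal.ofReal (Real.exp (∑ i, ξ i * y i)) *
        (ENNReal.ofReal (Real.exp (∑ i, a i * y i)))⁻¹
        = ENNReal.ofReal (Real.exp (∑ i, η i * B y i)) := by
      rw [← ENNReal.ofReal_inv_of_pos (Real.exp_pos _), ← ENNReal.ofReal_mul (Real.exp_pos _).le,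
        ← Real.exp_neg, ← Real.exp_add, ← hB η y]
      congr 2
      have h3 : A η = ξ - a := by rw [hη]; simp
      rw [h3, ← Finset.sum_neg_distrib, ← Finset.sum_add_distrib]
      refine Finset.sum_congr rfl fun i _ => ?_
      change _ = (ξ i - a i) * y i
      ring
    rw [← hexp]
    ring
  rw [vol_T A a K hK, ← hd, hI]
  refine (hG η).trans (le_of_eq ?_)
  have hq : (0 : ℝ) ≤ 1 + 1 / p := by positivity
  rw [ENNReal.mul_rpow_of_nonneg _ _ hq, ENNReal.rpow_add _ _ hd0 hdt, ENNReal.rpow_one]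
  have hA0 : d ^ (1 / p) ≠ 0 := (ENNReal.rpow_pos (pos_iff_ne_zero.2 hd0) hdt).ne'
  have hAt : d ^ (1 / p) ≠ ∞ := ENNReal.rpow_ne_top_of_nonneg hp'.le hdt
  calc volume K ^ (1 + 1 / p) * In p K η
      = (d * d⁻¹) * (d ^ (1 / p) * (d ^ (1 / p))⁻¹) * (volume K ^ (1 + 1 / p) * In p K η) := by
        rw [ENNReal.mul_inv_cancel hd0 hdt, ENNReal.mul_inv_cancel hA0 hAt, one_mul, one_mul]
    _ = d * d ^ (1 / p) * volume K ^ (1 + 1 / p) * ((d ^ (1 / p))⁻¹ * (d⁻¹ * In p K η)) := by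
        ring

end Pool.Agent.H58.LM.T.AFF
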