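import Pool.Agent.H58.LM.T.GEOS

/-!
CLS: the members of the class are convex, compact, with nonempty interior, and satisfy Red.
-/

set_option autoImplicit false

open MeasureTheory Set Filter
open scoped ENNReal Topology

namespace Pool.Agent.H58.LM.T.CLS

open Pool.Agent.H58.LM

theorem simp_compact (m : ℕ) : IsCompact (Simp m) := by
  have h1 : IsClosed (Simp m) := by
    have h2 : Simp m = (⋂ i, {z : Fin m → ℝ | 0 ≤ z i}) ∩ {z | ∑ i, z i ≤ 1} := by
      ext z
      simp [Simp]
    rw [h2]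
    refine IsClosed.inter (isClosed_iInter fun i => ?_) ?_
    · exact isClosed_le continuous_const (continuous_apply i)
    · exact isClosed_le (by fun_prop) continuous_const
  have h2 : Simp m ⊆ Set.Icc (fun _ => 0) (fun _ => 1) := by
    intro z hz
    refine ⟨fun i => hz.1 i, fun i => ?_⟩
    exact (Finset.single_le_sum (fun j _ => hz.1 j) (Finset.mem_univ i)).trans hz.2
  exact isCompact_Icc.of_isClosed_subset h1 h2

theorem simp_interior (m : ℕ) : (interior (Simp m)).Nonempty := by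
  refine ⟨fun _ => 1 / ((m : ℝ) + 1), ?_⟩
  rw [mem_interior]
  refine ⟨(⋂ i, {z : Fin m → ℝ | 0 < z i}) ∩ {z | ∑ i, z i < 1}, ?_, ?_, ?_⟩
  · rintro z ⟨hz1, hz2⟩
    exact ⟨fun i => (mem_iInter.1 hz1 i).le, hz2.le⟩
  · refine IsOpen.inter (isOpen_iInter_of_finite fun i => ?_) ?_
    · exact isOpen_lt continuous_const (continuous_apply i)
    · exact isOpen_lt (by fun_prop) continuous_const
  · refine ⟨mem_iInter.2 fun i => ?_, ?_⟩
    · change (0 : ℝ) < 1 / ((m : ℝ) + 1)
      positivity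
    · change ∑ _i : Fin m, 1 / ((m : ℝ) + 1) < 1
      rw [Finset.sum_const, Finset.card_univ, Fintype.card_fin, nsmul_eq_mul, mul_one_div,
        div_lt_one (by positivity)]
      linarith

theorem jo_compact {X Y : Type} [NormedAddCommGroup X] [NormedSpace ℝ X] [NormedAddCommGroup Y]
    [NormedSpace ℝ Y] {K : Set X} {L : Set Y} (hK : IsCompact K) (hL : IsCompact L) :
    IsCompact (Jo K L) := by
  have h1 : Jo K L = (fun z : X × Y × ℝ => ((1 - z.2.2) • z.1, z.2.2 • z.2.1, z.2.2)) ''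
      (K ×ˢ (L ×ˢ (Set.Icc (0 : ℝ) 1))) := by
    ext ⟨x, y, r⟩
    constructor
    · rintro ⟨h0, h1, ⟨k, hk, hx⟩, ⟨l, hl, hy⟩⟩
      change 0 ≤ r at h0
      change r ≤ 1 at h1
      change x = (1 - r) • k at hx
      change y = r • l at hy
      refine ⟨(k, l, r), ⟨hk, hl, h0, h1⟩, ?_⟩
      rw [hx, hy]
    · rintro ⟨⟨k, l, s⟩, ⟨hk, hl, h0, h1⟩, he⟩
      rw [Prod.mk.injEq, Prod.mk.injEq] at he
      obtain ⟨hx, hy, hr⟩ := he
      change (1 - s) • k = x at hx
      change s • l = y at hy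
      change s = r at hr
      subst hr
      exact ⟨h0, h1, ⟨k, hk, hx.symm⟩, ⟨l, hl, hy.symm⟩⟩
  rw [h1]
  refine (hK.prod (hL.prod isCompact_Icc)).image ?_
  fun_prop

theorem su_compact {X Y : Type} [NormedAddCommGroup X] [NormedSpace ℝ X] [NormedAddCommGroup Y]
    [NormedSpace ℝ Y] {K : Set X} {L : Set Y} (hK : IsCompact K) (hL : IsCompact L) :
    IsCompact (Su K L) := by
  have h1 : Su K L = (fun z : X × Y × ℝ => ((1 - z.2.2) • z.1, z.2.2 • z.2.1)) ''
      (K ×ˢ (L ×ˢ (Set.Icc (0 : ℝ) 1))) := by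
    ext ⟨x, y⟩
    constructor
    · rintro ⟨r, h0, h1, ⟨k, hk, hx⟩, ⟨l, hl, hy⟩⟩
      change x = (1 - r) • k at hx
      change y = r • l at hy
      refine ⟨(k, l, r), ⟨hk, hl, h0, h1⟩, ?_⟩
      rw [hx, hy]
    · rintro ⟨⟨k, l, s⟩, ⟨hk, hl, h0, h1⟩, he⟩
      rw [Prod.mk.injEq] at he
      obtain ⟨hx, hy⟩ := he
      change (1 - s) • k = x at hx
      change s • l = y at hy
      exact ⟨s, h0, h1, ⟨k, hk, hx.symm⟩, ⟨l, hl, hy.symm⟩⟩
  rw [h1]
  refine (hK.prod (hL.prod isCompact_Icc)).image ?_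
  fun_prop

theorem main (h1 : S_PLAN) (h2 : S_RTRIV) (h3 : S_RAFF) (h4 : S_JOIN) (h5 : S_SUMT) (h6 : S_GEOJ)
    (h7 : S_GEOS) : S_CLS := by
  intro p hp n K hK
  induction hK with
  | simplex n =>
    refine ⟨GEOS.simp_convex n, simp_compact n, simp_interior n, ?_⟩
    refine (h2 p hp (Fin n → ℝ) (Simp n) (simp_compact n).measurableSet).1 ?_
    refine ⟨n, ContinuousLinearEquiv.refl ℝ _, 0, ?_⟩
    simp
  | planar K hc hk hi => exact ⟨hc, hk, hi, h1 p hp K hc hk hi⟩
  | @affine n K A a hK ih =>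
    obtain ⟨hc, hk, hi, hr⟩ := ih
    have hcont : Continuous fun x : Fin n → ℝ => A x + a := by fun_prop
    refine ⟨?_, hk.image hcont, ?_, h3 p hp _ _ A a K hk.measurableSet hr⟩
    · have h8 : (fun x => A x + a) '' K = (fun x => x + a) '' (A '' K) := by
        rw [image_image]
      rw [h8]
      have h9 : Convex ℝ (A '' K) := hc.linear_image (A.toLinearEquiv : (Fin n → ℝ) →ₗ[ℝ] (Fin n → ℝ))
      have h10 := h9.translate a
      have h11 : (fun x => x + a) '' (A '' K) = (fun z => a + z) '' (A '' K) := by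
        congr 1
        funext x
        exact add_comm x a
      rw [h11]
      exact h10
    · have h8 : (fun x => A x + a) = (A.toHomeomorph.trans (Homeomorph.addRight a)) := rfl
      rw [h8, ← Homeomorph.image_interior]
      exact hi.image _
  | @join m n K L A B _ _ hi ihK ihL =>
    obtain ⟨hKc, hKk, hKi, hKr⟩ := ihK
    obtain ⟨hLc, hLk, hLi, hLr⟩ := ihL
    have hKn : K.Nonempty := hKi.mono interior_subset
    have hLn : L.Nonempty := hLi.mono interior_subset
    obtain ⟨Ψ, a, he⟩ := h6 m n K L A B hKc hKn hLc hLn hi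
    have hcomp : IsCompact (convexHull ℝ (A '' K ∪ B '' L)) := by
      rw [he]
      exact (jo_compact hKk hLk).image (by fun_prop)
    refine ⟨convex_convexHull ℝ _, hcomp, hi, ?_⟩
    rw [he]
    exact h3 p hp _ _ Ψ a (Jo K L) (jo_compact hKk hLk).measurableSet
      (h4 p hp _ _ K L hKk hLk hKr hLr)
  | @sum m n L A B _ hne hi ih =>
    obtain ⟨hLc, hLk, hLi, hLr⟩ := ih
    obtain ⟨v, hv, l, hl, Ψ, a, he⟩ := h7 m n L A B hLc hne hi
    have hL' : (fun x => x - l) '' L
        = (fun x => (ContinuousLinearEquiv.refl ℝ (Fin n → ℝ)) x + (-l)) '' L := by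
      congr 1
    have hLk' : IsCompact ((fun x => x - l) '' L) := hLk.image (by fun_prop)
    have hLr' : Red p ((fun x => x - l) '' L) := by
      rw [hL']
      exact h3 p hp _ _ (ContinuousLinearEquiv.refl ℝ (Fin n → ℝ)) (-l) L hLk.measurableSet hLr
    have hLc' : Convex ℝ ((fun x => x - l) '' L) := by
      have h10 := hLc.translate (-l)
      have h11 : (fun x => x - l) '' L = (fun z => -l + z) '' L := by
        congr 1
        funext x
        rw [sub_eq_neg_add]
      rw [h11]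
      exact h10
    have hSk : IsCompact ((fun x => x - v) '' Simp m) := (simp_compact m).image (by fun_prop)
    have hcomp : IsCompact (convexHull ℝ (A '' Simp m ∪ B '' L)) := by
      rw [he]
      exact (su_compact hSk hLk').image (by fun_prop)
    refine ⟨convex_convexHull ℝ _, hcomp, hi, ?_⟩
    rw [he]
    exact h3 p hp _ _ Ψ a _ (su_compact hSk hLk').measurableSet
      (h5 p hp (Fin n → ℝ) m _ hLk' hLc' ⟨l, hl, sub_self l⟩ hLr' v hv)

end Pool.Agent.H58.LM.T.CLS
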