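import Pool.Agent.H58.LM.Stm

/-! # Project LM, stub EQV (helper44) -/

set_option autoImplicit false

open MeasureTheory Set Filter
open scoped ENNReal Topology

namespace Pool.Agent.H58.LM.T.EQV

open Pool.Agent.H58.LM

section

variable {E F : Type} [NormedAddCommGroup E] [NormedSpace ℝ E] [MeasurableSpace E] [BorelSpace E]
  [NormedAddCommGroup F] [NormedSpace ℝ F] [MeasurableSpace F] [BorelSpace F]

theorem meas_lin (A : E ≃L[ℝ] F) {S : Set E} (hS : MeasurableSet S) : MeasurableSet (A '' S) := by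
  have h : A '' S = A.symm ⁻¹' S := by
    ext y
    constructor
    · rintro ⟨x, hx, rfl⟩
      simpa using hx
    · intro hy
      exact ⟨A.symm y, hy, by simp⟩
  rw [h]
  exact A.symm.continuous.measurable hS

theorem meas_aff (A : E ≃L[ℝ] F) (a : F) {S : Set E} (hS : MeasurableSet S) :
    MeasurableSet ((fun x => A x + a) '' S) := by
  have h : (fun x => A x + a) '' S = (fun y => A.symm (y - a)) ⁻¹' S := by
    ext y
    constructor
    · rintro ⟨x, hx, rfl⟩
      simpa using hx
    · intro hy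
      exact ⟨A.symm (y - a), hy, by simp⟩
  rw [h]
  exact (A.symm.continuous.comp (continuous_id.sub continuous_const)).measurable hS

theorem one {p : ℝ} (hp : 0 < p) (hA : S_AFF) {S : Set E} (hS : MeasurableSet S) {n : ℕ}
    (φ : E ≃L[ℝ] (Fin n → ℝ)) (h : Good p (φ '' S)) : GoodE p S := by
  intro m ψ
  have hmn : n = m := by
    have h1 := (φ.symm.trans ψ).toLinearEquiv.finrank_eq
    simpa using h1
  subst hmn
  have h2 := hA p hp n (φ.symm.trans ψ) 0 (φ '' S) (meas_lin φ hS) h
  have h3 : (fun x => (φ.symm.trans ψ) x + 0) '' (φ '' S) = ψ '' S := by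
    rw [Set.image_image]
    refine Set.image_congr fun x _ => ?_
    simp
  rwa [h3] at h2

theorem two {p : ℝ} (hp : 0 < p) (hA : S_AFF) {S : Set E} (hS : MeasurableSet S)
    (A : E ≃L[ℝ] F) (a : F) (h : GoodE p S) : GoodE p ((fun x => A x + a) '' S) := by
  intro m ψ
  have h1 := h m (A.trans ψ)
  have h2 := hA p hp m (ContinuousLinearEquiv.refl ℝ (Fin m → ℝ)) (ψ a) ((A.trans ψ) '' S)
    (meas_lin (A.trans ψ) hS) h1
  have h3 : (fun x => (ContinuousLinearEquiv.refl ℝ (Fin m → ℝ)) x + ψ a) '' ((A.trans ψ) '' S) =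
      ψ '' ((fun x => A x + a) '' S) := by
    rw [Set.image_image, Set.image_image]
    refine Set.image_congr fun x _ => ?_
    simp
  rwa [h3] at h2

theorem three {p : ℝ} (hp : 0 < p) (hA : S_AFF) {S : Set E} (hS : MeasurableSet S)
    (A : E ≃L[ℝ] F) (a : F) (h : GoodE p ((fun x => A x + a) '' S)) : GoodE p S := by
  have h1 := two hp hA (meas_aff A a hS) A.symm (-(A.symm a)) h
  have h2 : (fun y => A.symm y + -(A.symm a)) '' ((fun x => A x + a) '' S) = S := by
    rw [Set.image_image]
    simp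
  rwa [h2] at h1

end

theorem main (hA : S_AFF) : S_EQV := by
  intro p hp E F _ _ _ _ _ _ _ _ _ _ S hS
  exact ⟨fun n φ h => one hp hA hS φ h, fun A a h => two hp hA hS A a h,
    fun A a h => three hp hA hS A a h⟩

end Pool.Agent.H58.LM.T.EQV
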