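import Pool.Agent.H58.LM.Stm

/-! FIN: the `L^p` Mahler volume as in the problem, and shifts outside the simplex. -/

set_option autoImplicit false

open MeasureTheory Set Filter
open scoped ENNReal Topology

namespace Pool.Agent.H58.LM.T.FIN

variable {n : ℕ}

lemma simp_closed : IsClosed (Simp n) := by
  have h : Simp n = (⋂ i, {z : Fin n → ℝ | 0 ≤ z i}) ∩ {z : Fin n → ℝ | ∑ i, z i ≤ 1} := by
    ext z
    simp [Simp]
  rw [h]
  exact (isClosed_iInter fun i => isClosed_le continuous_const (continuous_apply i)).inter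
    (isClosed_le (by fun_prop) continuous_const)

lemma simp_compact : IsCompact (Simp n) := by
  refine IsCompact.of_isClosed_subset (isCompact_Icc (a := (0 : Fin n → ℝ)) (b := 1))
    simp_closed ?_
  rintro x ⟨h1, h2⟩
  refine ⟨fun i => h1 i, fun i => ?_⟩
  exact (Finset.single_le_sum (fun j _ => h1 j) (Finset.mem_univ i)).trans h2

lemma simp_meas : MeasurableSet (Simp n) := simp_closed.measurableSet

lemma simp_vol_ne_top : volume (Simp n) ≠ ∞ := simp_compact.measure_ne_top

lemma simp_vol_ne_zero : volume (Simp n) ≠ 0 := by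
  have hsub : Set.pi univ (fun _ : Fin n => Ioo (0 : ℝ) (1 / ((n : ℝ) + 1))) ⊆ Simp n := by
    intro x hx
    refine ⟨fun i => (hx i (mem_univ i)).1.le, ?_⟩
    calc ∑ i, x i ≤ ∑ _i : Fin n, 1 / ((n : ℝ) + 1) :=
          Finset.sum_le_sum fun i _ => (hx i (mem_univ i)).2.le
      _ = n * (1 / ((n : ℝ) + 1)) := by simp
      _ ≤ 1 := by
          rw [mul_one_div, div_le_one (by positivity)]
          linarith
  intro h
  have h1 := measure_mono_null hsub h
  rw [volume_pi_pi, Finset.prod_eq_zero_iff] at h1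
  obtain ⟨i, _, hi⟩ := h1
  rw [Real.volume_Ioo, ENNReal.ofReal_eq_zero] at hi
  have : (0 : ℝ) < 1 / ((n : ℝ) + 1) := by positivity
  linarith

lemma I_top {p : ℝ} (hp : 0 < p) (ξ : Fin n → ℝ) {E : Set (Fin n → ℝ)} (hE : MeasurableSet E)
    (hvE : volume E = ∞)
    (h : ∀ y ∈ E, ∀ x ∈ Simp n, ∑ i, x i * y i ≤ ∑ i, ξ i * y i) :
    In p (Simp n) ξ = ∞ := by
  have hp' : 0 < 1 / p := by positivity
  set κ : ℝ≥0∞ := ((volume (Simp n)) ^ (1 / p))⁻¹ with hκ
  have hκ0 : κ ≠ 0 := by
    rw [hκ]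
    apply ENNReal.inv_ne_zero.2
    exact ENNReal.rpow_ne_top_of_nonneg hp'.le simp_vol_ne_top
  have hle : ∀ y ∈ E, κ ≤ ENNReal.ofReal (Real.exp (∑ i, ξ i * y i)) *
      ((Jn p (Simp n) y) ^ (1 / p))⁻¹ := by
    intro y hy
    set F := ENNReal.ofReal (Real.exp (∑ i, ξ i * y i)) with hF
    have hF0 : F ≠ 0 := (ENNReal.ofReal_pos.2 (Real.exp_pos _)).ne'
    have hFt : F ≠ ∞ := ENNReal.ofReal_ne_top
    have h1 : Jn p (Simp n) y ≤ ENNReal.ofReal (Real.exp (p * ∑ i, ξ i * y i)) *
        volume (Simp n) := by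
      unfold Jn
      calc ∫⁻ x in Simp n, ENNReal.ofReal (Real.exp (p * ∑ i, x i * y i))
          ≤ ∫⁻ _ in Simp n, ENNReal.ofReal (Real.exp (p * ∑ i, ξ i * y i)) := by
            apply setLIntegral_mono' simp_meas
            intro x hx
            apply ENNReal.ofReal_le_ofReal
            apply Real.exp_le_exp.2
            exact mul_le_mul_of_nonneg_left (h y hy x hx) hp.le
        _ = _ := by simp
    have h2 : (Jn p (Simp n) y) ^ (1 / p) ≤ F * (volume (Simp n)) ^ (1 / p) := by
      calc (Jn p (Simp n) y) ^ (1 / p) ≤ (ENNReal.ofReal (Real.exp (p * ∑ i, ξ i * y i)) *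
          volume (Simp n)) ^ (1 / p) := ENNReal.rpow_le_rpow h1 hp'.le
        _ = _ := by
          rw [ENNReal.mul_rpow_of_nonneg _ _ hp'.le, ENNReal.ofReal_rpow_of_pos (Real.exp_pos _),
            ← Real.exp_mul, hF]
          congr 3
          field_simp
    calc κ = F * (F * (volume (Simp n)) ^ (1 / p))⁻¹ := by
          rw [ENNReal.mul_inv (Or.inl hF0) (Or.inl hFt), ← mul_assoc,
            ENNReal.mul_inv_cancel hF0 hFt, one_mul]
      _ ≤ F * ((Jn p (Simp n) y) ^ (1 / p))⁻¹ := by gcongr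
  rw [eq_top_iff]
  calc (∞ : ℝ≥0∞) = κ * volume E := by rw [hvE, ENNReal.mul_top hκ0]
    _ = ∫⁻ _ in E, κ := by simp
    _ ≤ ∫⁻ y in E, ENNReal.ofReal (Real.exp (∑ i, ξ i * y i)) *
        ((Jn p (Simp n) y) ^ (1 / p))⁻¹ := setLIntegral_mono' hE hle
    _ ≤ In p (Simp n) ξ := setLIntegral_le_lintegral _ _

lemma I_top_outside {p : ℝ} (hp : 0 < p) {ξ : Fin n → ℝ} (hξ : ξ ∉ Simp n) :
    In p (Simp n) ξ = ∞ := by
  classical
  have h3 : (∃ j, ξ j < 0) ∨ 1 < ∑ i, ξ i := by
    by_contra hcon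
    rw [not_or, not_lt] at hcon
    refine hξ ⟨fun i => ?_, hcon.2⟩
    by_contra h
    exact hcon.1 ⟨i, not_le.1 h⟩
  set M : ℝ := ∑ i, |ξ i| with hM
  have hM0 : 0 ≤ M := Finset.sum_nonneg fun i _ => abs_nonneg _
  rcases h3 with ⟨j, hj⟩ | h
  · have hn : 0 < -ξ j := by linarith
    set R : ℝ := M / (-ξ j) with hR
    have hR0 : 0 ≤ R := div_nonneg hM0 hn.le
    refine I_top hp ξ (E := Set.pi univ (fun i : Fin n => if i = j then Iic (-R) else
      Icc (-1 : ℝ) 0)) ?_ ?_ ?_
    · apply MeasurableSet.univ_pi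
      intro i
      by_cases hi : i = j
      · simp only [hi, if_true]; exact measurableSet_Iic
      · simp only [hi, if_false]; exact measurableSet_Icc
    · rw [volume_pi_pi, Finset.prod_eq_single j]
      · rw [if_pos rfl, Real.volume_Iic]
      · intro i _ hi
        rw [if_neg hi, Real.volume_Icc]
        norm_num
      · intro h
        exact absurd (Finset.mem_univ j) h
    · rintro y hy x ⟨x1, x2⟩
      have hyj : y j ≤ -R := by
        have := hy j (mem_univ j)
        simpa using this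
      have hyi : ∀ i, i ≠ j → -1 ≤ y i ∧ y i ≤ 0 := by
        intro i hi
        have := hy i (mem_univ i)
        simpa [hi] using this
      have h4 : ∑ i, x i * y i ≤ 0 := by
        apply Finset.sum_nonpos
        intro i _
        apply mul_nonpos_of_nonneg_of_nonpos (x1 i)
        by_cases hi : i = j
        · rw [hi]; linarith
        · exact (hyi i hi).2
      have h5 : 0 ≤ ∑ i, ξ i * y i := by
        rw [← Finset.add_sum_erase _ _ (Finset.mem_univ j)]
        have h6 : M ≤ ξ j * y j := by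
          have h7 : M / (-ξ j) ≤ -y j := by rw [← hR]; linarith
          rw [div_le_iff₀ hn] at h7
          linarith
        have h8 : -(∑ i ∈ Finset.univ.erase j, |ξ i|) ≤ ∑ i ∈ Finset.univ.erase j, ξ i * y i := by
          rw [← Finset.sum_neg_distrib]
          apply Finset.sum_le_sum
          intro i hi
          have hi' := hyi i (Finset.ne_of_mem_erase hi)
          have h9 : |ξ i * y i| ≤ |ξ i| := by
            rw [abs_mul]
            have : |y i| ≤ 1 := abs_le.2 ⟨hi'.1, by linarith⟩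
            exact mul_le_of_le_one_right (abs_nonneg _) this
          exact (abs_le.1 h9).1
        have h10 : ∑ i ∈ Finset.univ.erase j, |ξ i| ≤ M := by
          rw [hM]
          exact Finset.sum_le_sum_of_subset_of_nonneg (Finset.erase_subset _ _)
            fun i _ _ => abs_nonneg _
        linarith
      linarith
  · have hne : Nonempty (Fin n) := by
      by_contra hcon
      rw [not_nonempty_iff] at hcon
      rw [Finset.univ_eq_empty, Finset.sum_empty] at h
      linarith
    obtain ⟨j⟩ := hne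
    set d : ℝ := ∑ i, ξ i - 1 with hd
    have hd0 : 0 < d := by linarith
    obtain ⟨N, hN⟩ := exists_nat_ge ((M + 1) / d)
    rw [div_le_iff₀ hd0] at hN
    set C : ℕ → Set (Fin n → ℝ) := fun k =>
      Set.pi univ (fun _ : Fin n => Ico ((N : ℝ) + k) ((N : ℝ) + k + 1)) with hC
    have hCm : ∀ k, MeasurableSet (C k) := fun k =>
      MeasurableSet.univ_pi fun i => measurableSet_Ico
    refine I_top hp ξ (E := ⋃ k, C k) (MeasurableSet.iUnion hCm) ?_ ?_
    · rw [measure_iUnion _ hCm]
      · have : ∀ k, volume (C k) = 1 := by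
          intro k
          rw [hC]
          simp only
          rw [volume_pi_pi]
          apply Finset.prod_eq_one
          intro i _
          rw [Real.volume_Ico]
          norm_num
        simp only [this]
        exact ENNReal.tsum_const_eq_top_of_ne_zero one_ne_zero
      · intro k l hkl
        rw [Function.onFun, Set.disjoint_left]
        intro y hy hy'
        have h1 := hy j (mem_univ j)
        have h2 := hy' j (mem_univ j)
        apply hkl
        have h3 : (k : ℝ) < l + 1 := by linarith [h1.1, h2.2]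
        have h4 : (l : ℝ) < k + 1 := by linarith [h1.2, h2.1]
        have h5 : k < l + 1 := by exact_mod_cast h3
        have h6 : l < k + 1 := by exact_mod_cast h4
        omega
    · rintro y hy x ⟨x1, x2⟩
      obtain ⟨k, hk⟩ := mem_iUnion.1 hy
      have hy1 : ∀ i, (N : ℝ) + k ≤ y i ∧ y i < (N : ℝ) + k + 1 := fun i => hk i (mem_univ i)
      have hk0 : (0 : ℝ) ≤ k := Nat.cast_nonneg k
      have hN0 : (0 : ℝ) ≤ N := Nat.cast_nonneg N
      have h4 : ∑ i, x i * y i ≤ (N : ℝ) + k + 1 := by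
        calc ∑ i, x i * y i ≤ ∑ i, x i * ((N : ℝ) + k + 1) :=
              Finset.sum_le_sum fun i _ => mul_le_mul_of_nonneg_left (hy1 i).2.le (x1 i)
          _ = (∑ i, x i) * ((N : ℝ) + k + 1) := by rw [Finset.sum_mul]
          _ ≤ 1 * ((N : ℝ) + k + 1) := mul_le_mul_of_nonneg_right x2 (by positivity)
          _ = _ := one_mul _
      have h5 : ((N : ℝ) + k) * (∑ i, ξ i) - M ≤ ∑ i, ξ i * y i := by
        rw [hM, Finset.mul_sum, ← Finset.sum_sub_distrib]
        apply Finset.sum_le_sum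
        intro i _
        have h6 : |ξ i * (y i - ((N : ℝ) + k))| ≤ |ξ i| := by
          rw [abs_mul]
          have : |y i - ((N : ℝ) + k)| ≤ 1 :=
            abs_le.2 ⟨by linarith [(hy1 i).1], by linarith [(hy1 i).2]⟩
          exact mul_le_of_le_one_right (abs_nonneg _) this
        have h7 := (abs_le.1 h6).1
        have h8 : ξ i * (y i - ((N : ℝ) + k)) = ξ i * y i - ((N : ℝ) + k) * ξ i := by ring
        linarith
      have h6 : M + 1 ≤ ((N : ℝ) + k) * d := by
        have : 0 ≤ (k : ℝ) * d := mul_nonneg hk0 hd0.le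
        nlinarith
      have h7 : ∑ i, ξ i = d + 1 := by rw [hd]; ring
      rw [h7] at h5
      nlinarith

/-! ### the Mahler volume -/

/-- the `L^p` Mahler volume -/
noncomputable def Mp (p : ℝ) (L : Set (Fin n → ℝ)) : ℝ≥0∞ := volume L *
  ∫⁻ y : Fin n → ℝ, ENNReal.ofReal
    (((∫ x in L, Real.exp (p * ∑ i, x i * y i)) / (volume L).toReal) ^ (-(1 / p)))

lemma expm (p : ℝ) (y : Fin n → ℝ) :
    Continuous fun x : Fin n → ℝ => Real.exp (p * ∑ i, x i * y i) := by fun_prop

lemma J_ne_zero {p : ℝ} {K : Set (Fin n → ℝ)} (hv : volume K ≠ 0) (y : Fin n → ℝ) :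
    Jn p K y ≠ 0 := by
  unfold Jn
  intro h
  have hm : Measurable fun x : Fin n → ℝ => ENNReal.ofReal (Real.exp (p * ∑ i, x i * y i)) :=
    (ENNReal.continuous_ofReal.comp (expm p y)).measurable
  rw [lintegral_eq_zero_iff hm] at h
  apply hv
  have h2 : ∀ᵐ x ∂(volume.restrict K), False := by
    filter_upwards [h] with x hx
    have : 0 < ENNReal.ofReal (Real.exp (p * ∑ i, x i * y i)) :=
      ENNReal.ofReal_pos.2 (Real.exp_pos _)
    exact this.ne' hx
  have h3 : (volume.restrict K) = 0 := by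
    rw [← ae_eq_bot]
    rwa [← Filter.eventually_false_iff_eq_bot]
  rwa [Measure.restrict_eq_zero] at h3

lemma J_ne_top {p : ℝ} {K : Set (Fin n → ℝ)} (hK : IsCompact K) (y : Fin n → ℝ) :
    Jn p K y ≠ ∞ := by
  have h := ((expm p y).continuousOn (s := K)).integrableOn_compact hK (μ := volume)
  have h2 := h.hasFiniteIntegral
  unfold Jn
  rw [hasFiniteIntegral_iff_ofReal (Eventually.of_forall fun x => (Real.exp_pos _).le)] at h2
  exact h2.ne

lemma Mp_eq {p : ℝ} (hp : 0 < p) {K : Set (Fin n → ℝ)} (hK : IsCompact K)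
    (hv : volume K ≠ 0) :
    Mp p K = (volume K) ^ (1 + 1 / p) * In p K 0 := by
  have hp' : 0 < 1 / p := by positivity
  have hvt : volume K ≠ ∞ := hK.measure_ne_top
  set V := volume K with hV
  have hJ : ∀ y : Fin n → ℝ, ∫ x in K, Real.exp (p * ∑ i, x i * y i) =
      (Jn p K y).toReal := by
    intro y
    unfold Jn
    rw [integral_eq_lintegral_of_nonneg_ae
      (Eventually.of_forall fun x => (Real.exp_pos _).le)
      (expm p y).aestronglyMeasurable]
  unfold Mp
  have h1 : ∀ y : Fin n → ℝ, ENNReal.ofReal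
      (((∫ x in K, Real.exp (p * ∑ i, x i * y i)) / (volume K).toReal) ^ (-(1 / p))) =
      V ^ (1 / p) * ((Jn p K y) ^ (1 / p))⁻¹ := by
    intro y
    rw [hJ, ← hV]
    set X := Jn p K y with hX
    have hX0 : X ≠ 0 := J_ne_zero hv y
    have hXt : X ≠ ∞ := J_ne_top hK y
    have hXr : 0 < X.toReal := ENNReal.toReal_pos hX0 hXt
    have hVr : 0 < V.toReal := ENNReal.toReal_pos hv hvt
    rw [Real.rpow_neg (by positivity), ENNReal.ofReal_inv_of_pos (by positivity),
      ← ENNReal.ofReal_rpow_of_pos (by positivity), ENNReal.ofReal_div_of_pos hVr,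
      ENNReal.ofReal_toReal hXt, ENNReal.ofReal_toReal hvt, ENNReal.div_rpow_of_nonneg _ _ hp'.le,
      ENNReal.inv_div (Or.inl (ENNReal.rpow_ne_top_of_nonneg hp'.le hvt))
        (Or.inl (by simp [ENNReal.rpow_eq_zero_iff, hv, hvt])), div_eq_mul_inv]
  simp only [h1]
  rw [lintegral_const_mul' _ _ (ENNReal.rpow_ne_top_of_nonneg hp'.le hvt), ← mul_assoc, ← hV,
    ENNReal.rpow_add _ _ hv hvt, ENNReal.rpow_one]
  congr 1
  unfold In
  refine lintegral_congr fun y => ?_
  simp

lemma sub_image (x : Fin n → ℝ) (K : Set (Fin n → ℝ)) :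
    (fun z : Fin n → ℝ => z - x) '' K = (fun z => z + x) ⁻¹' K := by
  ext z
  constructor
  · rintro ⟨w, hw, rfl⟩
    show w - x + x ∈ K
    rwa [sub_add_cancel]
  · intro hz
    exact ⟨z + x, hz, add_sub_cancel_right z x⟩

lemma sub_vol (x : Fin n → ℝ) (K : Set (Fin n → ℝ)) :
    volume ((fun z : Fin n → ℝ => z - x) '' K) = volume K := by
  rw [sub_image, measure_preimage_add_right]

lemma sub_lint (x : Fin n → ℝ) (K : Set (Fin n → ℝ)) (f : (Fin n → ℝ) → ℝ≥0∞) :
    ∫⁻ z in (fun z : Fin n → ℝ => z - x) '' K, f z = ∫⁻ z in K, f (z - x) := by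
  have h := (measurePreserving_sub_right (volume : Measure (Fin n → ℝ)) x).setLIntegral_comp_preimage_emb
    (MeasurableEquiv.subRight x).measurableEmbedding f ((fun z : Fin n → ℝ => z - x) '' K)
  rw [preimage_image_eq K (fun a b hab => sub_left_injective hab)] at h
  exact h.symm

lemma J_sub (p : ℝ) (x : Fin n → ℝ) (K : Set (Fin n → ℝ)) (y : Fin n → ℝ) :
    Jn p ((fun z : Fin n → ℝ => z - x) '' K) y =
      ENNReal.ofReal (Real.exp (-(p * ∑ i, x i * y i))) * Jn p K y := by
  unfold Jn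
  rw [sub_lint, ← lintegral_const_mul' _ _ ENNReal.ofReal_ne_top]
  refine lintegral_congr fun z => ?_
  rw [← ENNReal.ofReal_mul (Real.exp_pos _).le, ← Real.exp_add]
  congr 2
  have : ∑ i, (z - x) i * y i = ∑ i, z i * y i - ∑ i, x i * y i := by
    rw [← Finset.sum_sub_distrib]
    refine Finset.sum_congr rfl fun i _ => ?_
    rw [Pi.sub_apply]
    ring
  rw [this]
  ring

lemma I_sub {p : ℝ} (hp : 0 < p) (x : Fin n → ℝ) (K : Set (Fin n → ℝ)) :
    In p ((fun z : Fin n → ℝ => z - x) '' K) 0 = In p K x := by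
  have hp' : 0 < 1 / p := by positivity
  unfold In
  refine lintegral_congr fun y => ?_
  rw [J_sub, ENNReal.mul_rpow_of_nonneg _ _ hp'.le, ENNReal.ofReal_rpow_of_pos (Real.exp_pos _),
    ← Real.exp_mul]
  have e1 : -(p * ∑ i, x i * y i) * (1 / p) = -(∑ i, x i * y i) := by
    field_simp
  have hF0 : ENNReal.ofReal (Real.exp (-(∑ i, x i * y i))) ≠ 0 :=
    (ENNReal.ofReal_pos.2 (Real.exp_pos _)).ne'
  rw [e1, ENNReal.mul_inv (Or.inl hF0) (Or.inl ENNReal.ofReal_ne_top), ← mul_assoc]
  congr 1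
  rw [← ENNReal.ofReal_inv_of_pos (Real.exp_pos _), ← Real.exp_neg, neg_neg]
  simp

lemma Mp_shift {p : ℝ} (hp : 0 < p) (x : Fin n → ℝ) :
    Mp p ((fun z : Fin n → ℝ => z - x) '' Simp n) =
      (volume (Simp n)) ^ (1 + 1 / p) * In p (Simp n) x := by
  have hc : IsCompact ((fun z : Fin n → ℝ => z - x) '' Simp n) :=
    simp_compact.image (by fun_prop)
  rw [Mp_eq hp hc (by rw [sub_vol]; exact simp_vol_ne_zero), sub_vol, I_sub hp]

theorem main : S_FIN := by
  intro p hp n K hK hi hG
  show (⨅ x ∈ Simp n, Mp p ((fun z : Fin n → ℝ => z - x) '' Simp n)) ≤ Mp p K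
  have hv : volume K ≠ 0 := by
    have : 0 < volume (interior K) := isOpen_interior.measure_pos volume hi
    exact (lt_of_lt_of_le this (measure_mono interior_subset)).ne'
  rw [Mp_eq hp hK hv]
  refine le_trans ?_ (hG 0)
  unfold Lam
  apply le_iInf
  intro ξ
  by_cases hξ : ξ ∈ Simp n
  · rw [← Mp_shift hp ξ]
    exact iInf₂_le ξ hξ
  · rw [I_top_outside hp hξ, ENNReal.mul_top]
    · exact le_top
    · simp [ENNReal.rpow_eq_zero_iff, simp_vol_ne_zero, simp_vol_ne_top]

end Pool.Agent.H58.LM.T.FIN
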