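import Pool.Agent.H58.LM.Stm

/-!
GEOJ: the convex hull of affine copies in general position is an affine image of the join.
-/

set_option autoImplicit false

open MeasureTheory Set Filter
open scoped ENNReal Topology

namespace Pool.Agent.H58.LM.T.GEOJ

open Pool.Agent.H58.LM

theorem equiv_of_interior {E : Type} [NormedAddCommGroup E] [NormedSpace ℝ E]
    [FiniteDimensional ℝ E] {N : ℕ} (hE : Module.finrank ℝ E = N) (f : E →ₗ[ℝ] (Fin N → ℝ))
    (a : Fin N → ℝ) (S : Set E) (h : (interior ((fun x => f x + a) '' S)).Nonempty) :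
    ∃ Ψ : E ≃L[ℝ] (Fin N → ℝ), ∀ x, Ψ x = f x := by
  have hr : LinearMap.range f = ⊤ := by
    apply Submodule.eq_top_of_nonempty_interior'
    obtain ⟨x, hx⟩ := h
    refine ⟨x - a, ?_⟩
    rw [mem_interior_iff_mem_nhds] at hx ⊢
    have hc : Continuous fun y : Fin N → ℝ => y + a := by fun_prop
    have h1 : (fun y : Fin N → ℝ => y + a) ⁻¹' ((fun x => f x + a) '' S) ∈ 𝓝 (x - a) := by
      apply hc.continuousAt
      simpa using hx
    refine Filter.mem_of_superset h1 ?_
    rintro y ⟨s, _, hs⟩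
    have h2 : f s = y := add_right_cancel hs
    exact ⟨s, h2⟩
  have hsurj : Function.Surjective f := LinearMap.range_eq_top.1 hr
  have hinj : Function.Injective f := by
    refine (LinearMap.injective_iff_surjective_of_finrank_eq_finrank ?_).2 hsurj
    rw [hE]
    simp
  refine ⟨(LinearEquiv.ofBijective f ⟨hinj, hsurj⟩).toContinuousLinearEquiv, fun x => ?_⟩
  rfl

/-- the linear part of an affine map -/
theorem aff_eq {m N : ℕ} (A : (Fin m → ℝ) →ᵃ[ℝ] (Fin N → ℝ)) (x : Fin m → ℝ) :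
    A x = A.linear x + A 0 := by
  have h1 := A.map_vadd 0 x
  simpa using h1

theorem main : S_GEOJ := by
  intro m n K L A B hK hK0 hL hL0 hint
  have hKA : Convex ℝ (A '' K) := hK.affine_image A
  have hLB : Convex ℝ (B '' L) := hL.affine_image B
  set f : ((Fin m → ℝ) × (Fin n → ℝ) × ℝ) →ₗ[ℝ] (Fin (m + n + 1) → ℝ) :=
    A.linear.comp (LinearMap.fst ℝ _ _) +
      (B.linear.comp (LinearMap.fst ℝ (Fin n → ℝ) ℝ)).comp (LinearMap.snd ℝ _ _) +
      ((LinearMap.toSpanSingleton ℝ _ (B 0 - A 0)).comp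
        (LinearMap.snd ℝ (Fin n → ℝ) ℝ)).comp (LinearMap.snd ℝ _ _) with hf
  have hfv : ∀ z, f z = A.linear z.1 + B.linear z.2.1 + z.2.2 • (B 0 - A 0) := by
    intro z
    rw [hf]
    rfl
  have heq : convexHull ℝ (A '' K ∪ B '' L) = (fun x => f x + A 0) '' Jo K L := by
    rw [hKA.convexHull_union hLB (hK0.image _) (hL0.image _)]
    ext x
    rw [mem_convexJoin]
    constructor
    · rintro ⟨_, ⟨k, hk, rfl⟩, _, ⟨l, hl, rfl⟩, α, β, hα, hβ, hαβ, rfl⟩
      refine ⟨(α • k, β • l, β), ⟨hβ, by linarith, ⟨k, hk, ?_⟩, ⟨l, hl, rfl⟩⟩, ?_⟩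
      · change α • k = (1 - β) • k
        congr 1
        linarith
      · change f (α • k, β • l, β) + A 0 = _
        rw [hfv, aff_eq A k, aff_eq B l]
        change A.linear (α • k) + B.linear (β • l) + β • (B 0 - A 0) + A 0 = _
        have h1 : α = 1 - β := by linarith
        rw [map_smul, map_smul, h1]
        module
    · rintro ⟨⟨x, y, r⟩, ⟨h0, h1, ⟨k, hk, hx⟩, ⟨l, hl, hy⟩⟩, rfl⟩
      change x = (1 - r) • k at hx
      change y = r • l at hy
      change 0 ≤ r at h0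
      change r ≤ 1 at h1
      refine ⟨A k, ⟨k, hk, rfl⟩, B l, ⟨l, hl, rfl⟩, 1 - r, r, by linarith, h0, by ring, ?_⟩
      change _ = f (x, y, r) + A 0
      rw [hfv, aff_eq A k, aff_eq B l]
      change _ = A.linear x + B.linear y + r • (B 0 - A 0) + A 0
      rw [hx, hy, map_smul, map_smul]
      module
  rw [heq] at hint ⊢
  obtain ⟨Ψ, hΨ⟩ := equiv_of_interior (by simp; ring) f (A 0) (Jo K L) hint
  refine ⟨Ψ, A 0, ?_⟩
  congr 1
  funext x
  rw [hΨ]

end Pool.Agent.H58.LM.T.GEOJ
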