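import Pool.Agent.H58.LM.T.GEOJ

/-!
GEOS: the convex hull of a simplex and a convex body which meet is an affine image of the free sum.
-/

set_option autoImplicit false

open MeasureTheory Set Filter
open scoped ENNReal Topology

namespace Pool.Agent.H58.LM.T.GEOS

open Pool.Agent.H58.LM

theorem simp_convex (m : ℕ) : Convex ℝ (Simp m) := by
  intro x hx y hy a b ha hb hab
  refine ⟨fun i => ?_, ?_⟩
  · have h1 := mul_nonneg ha (hx.1 i)
    have h2 := mul_nonneg hb (hy.1 i)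
    simp only [Pi.add_apply, Pi.smul_apply, smul_eq_mul]
    linarith
  · simp only [Pi.add_apply, Pi.smul_apply, smul_eq_mul]
    rw [Finset.sum_add_distrib, ← Finset.mul_sum, ← Finset.mul_sum]
    have h1 := mul_le_mul_of_nonneg_left hx.2 ha
    have h2 := mul_le_mul_of_nonneg_left hy.2 hb
    linarith

theorem main : S_GEOS := by
  intro m n L A B hL hne hint
  obtain ⟨_, ⟨v, hv, rfl⟩, ⟨l, hl, hlv⟩⟩ := hne
  refine ⟨v, hv, l, hl, ?_⟩
  have hKA : Convex ℝ (A '' Simp m) := (simp_convex m).affine_image A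
  have hLB : Convex ℝ (B '' L) := hL.affine_image B
  set f : ((Fin m → ℝ) × (Fin n → ℝ)) →ₗ[ℝ] (Fin (m + n) → ℝ) :=
    A.linear.comp (LinearMap.fst ℝ _ _) + B.linear.comp (LinearMap.snd ℝ _ _) with hf
  have hfv : ∀ z, f z = A.linear z.1 + B.linear z.2 := by
    intro z
    rw [hf]
    rfl
  have heq : convexHull ℝ (A '' Simp m ∪ B '' L)
      = (fun x => f x + A v) '' Su ((fun x => x - v) '' Simp m) ((fun x => x - l) '' L) := by
    rw [hKA.convexHull_union hLB ⟨_, ⟨v, hv, rfl⟩⟩ ⟨_, ⟨l, hl, rfl⟩⟩]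
    ext x
    rw [mem_convexJoin]
    have hlv' : B.linear l + B 0 = A.linear v + A 0 := by
      rw [← GEOJ.aff_eq, ← GEOJ.aff_eq]
      exact hlv
    constructor
    · rintro ⟨_, ⟨k, hk, rfl⟩, _, ⟨l', hl', rfl⟩, α, β, hα, hβ, hαβ, rfl⟩
      refine ⟨(α • (k - v), β • (l' - l)), ⟨β, hβ, by linarith, ⟨k - v, ⟨k, hk, rfl⟩, ?_⟩,
        ⟨l' - l, ⟨l', hl', rfl⟩, rfl⟩⟩, ?_⟩
      · change α • (k - v) = (1 - β) • (k - v)
        congr 1
        linarith
      · change f (α • (k - v), β • (l' - l)) + A v = _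
        rw [hfv, GEOJ.aff_eq A k, GEOJ.aff_eq B l', GEOJ.aff_eq A v]
        change A.linear (α • (k - v)) + B.linear (β • (l' - l)) + (A.linear v + A 0) = _
        have h1 : α = 1 - β := by linarith
        have h2 : B.linear l = A.linear v + A 0 - B 0 := by rw [← hlv']; abel
        rw [map_smul, map_smul, map_sub, map_sub, h1, h2]
        module
    · rintro ⟨⟨x, y⟩, ⟨r, h0, h1, ⟨_, ⟨k, hk, rfl⟩, hx⟩, ⟨_, ⟨l', hl', rfl⟩, hy⟩⟩, rfl⟩
      change x = (1 - r) • (k - v) at hx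
      change y = r • (l' - l) at hy
      refine ⟨A k, ⟨k, hk, rfl⟩, B l', ⟨l', hl', rfl⟩, 1 - r, r, by linarith, h0, by ring, ?_⟩
      change _ = f (x, y) + A v
      rw [hfv, GEOJ.aff_eq A k, GEOJ.aff_eq B l', GEOJ.aff_eq A v]
      change _ = A.linear x + B.linear y + (A.linear v + A 0)
      have h2 : B.linear l = A.linear v + A 0 - B 0 := by rw [← hlv']; abel
      rw [hx, hy, map_smul, map_smul, map_sub, map_sub, h2]
      module
  rw [heq] at hint ⊢
  obtain ⟨Ψ, hΨ⟩ := GEOJ.equiv_of_interior (by simp) f (A v) _ hint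
  refine ⟨Ψ, A v, ?_⟩
  congr 1
  funext x
  rw [hΨ]

end Pool.Agent.H58.LM.T.GEOS
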