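import Pool.Agent.H58.LM.Stm

/-! POLY: induction on the number of vertices of a polygon, for an abstract property. -/

set_option autoImplicit false

open MeasureTheory Set Filter
open scoped ENNReal Topology

namespace Pool.Agent.H58.LM.T.POLY

/-- the shear of the right half plane -/
def shear (t : ℝ) (x : ℝ × ℝ) : ℝ × ℝ := (x.1, x.2 + t * max x.1 0)

lemma shear_cont (t : ℝ) : Continuous (shear t) := by
  unfold shear
  fun_prop

lemma shear_inv (t : ℝ) (x : ℝ × ℝ) : shear (-t) (shear t x) = x := by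
  unfold shear
  ext
  · rfl
  · show x.2 + t * max x.1 0 + -t * max x.1 0 = x.2
    ring

lemma shear_inv' (t : ℝ) (x : ℝ × ℝ) : shear t (shear (-t) x) = x := by
  have := shear_inv (-t) x
  rwa [neg_neg] at this

def shearEquiv (t : ℝ) : (ℝ × ℝ) ≃ᵐ (ℝ × ℝ) where
  toFun := shear t
  invFun := shear (-t)
  left_inv := shear_inv t
  right_inv := shear_inv' t
  measurable_toFun := (shear_cont t).measurable
  measurable_invFun := (shear_cont (-t)).measurable

lemma shear_mp (t : ℝ) : MeasurePreserving (shear t) volume volume := by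
  have h := (MeasurePreserving.id (volume : Measure ℝ)).skew_product
    (g := fun (a : ℝ) (b : ℝ) => b + t * max a 0) (μc := (volume : Measure ℝ))
    (μd := (volume : Measure ℝ)) (by
      show Measurable fun q : ℝ × ℝ => q.2 + t * max q.1 0
      fun_prop) (Eventually.of_forall fun a => by
      have := measurePreserving_add_right (volume : Measure ℝ) (t * max a 0)
      exact this.map_eq)
  exact h

lemma shear_image (t : ℝ) (K : Set (ℝ × ℝ)) : shear t '' K = shear (-t) ⁻¹' K := by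
  ext x
  constructor
  · rintro ⟨z, hz, rfl⟩
    show shear (-t) (shear t z) ∈ K
    rwa [shear_inv]
  · intro hx
    exact ⟨shear (-t) x, hx, shear_inv' t x⟩

lemma shear_lintegral (t : ℝ) (K : Set (ℝ × ℝ)) (f : ℝ × ℝ → ℝ≥0∞) :
    ∫⁻ x in shear t '' K, f x = ∫⁻ x in K, f (shear t x) := by
  have h := (shear_mp t).setLIntegral_comp_preimage_emb (shearEquiv t).measurableEmbedding f
    (shear t '' K)
  rw [preimage_image_eq K (fun x y hxy => by
    have := congrArg (shear (-t)) hxy
    rwa [shear_inv, shear_inv] at this)] at h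
  exact h.symm

lemma shear_volume (t : ℝ) (K : Set (ℝ × ℝ)) : volume (shear t '' K) = volume K := by
  have h := (shear_mp (-t)).measure_preimage_equiv (f := shearEquiv (-t)) K
  rw [shear_image]
  exact h

/-- linear map with matrix `(α β; γ δ)` -/
noncomputable def Lm (α β γ δ : ℝ) : (ℝ × ℝ) →L[ℝ] (ℝ × ℝ) :=
  (α • ContinuousLinearMap.fst ℝ ℝ ℝ + β • ContinuousLinearMap.snd ℝ ℝ ℝ).prod
    (γ • ContinuousLinearMap.fst ℝ ℝ ℝ + δ • ContinuousLinearMap.snd ℝ ℝ ℝ)

lemma Lm_apply (α β γ δ : ℝ) (x : ℝ × ℝ) :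
    Lm α β γ δ x = (α * x.1 + β * x.2, γ * x.1 + δ * x.2) := rfl

lemma Lm_det (α β γ δ : ℝ) : (Lm α β γ δ).det = α * δ - β * γ := by
  unfold Lm
  rw [← Matrix.toLin_finTwoProd_toContinuousLinearMap, ContinuousLinearMap.det,
    LinearMap.coe_toContinuousLinearMap, LinearMap.det_toLin, Matrix.det_fin_two_of]

/-- affine map -/
noncomputable def T (α β γ δ : ℝ) (b : ℝ × ℝ) (x : ℝ × ℝ) : ℝ × ℝ := Lm α β γ δ x + b

lemma T_apply (α β γ δ : ℝ) (b x : ℝ × ℝ) :
    T α β γ δ b x = (α * x.1 + β * x.2 + b.1, γ * x.1 + δ * x.2 + b.2) := rfl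

lemma T_deriv (α β γ δ : ℝ) (b x : ℝ × ℝ) : HasFDerivAt (T α β γ δ b) (Lm α β γ δ) x :=
  (Lm α β γ δ).hasFDerivAt.add_const b

lemma T_inj {α β γ δ : ℝ} (hD : α * δ - β * γ ≠ 0) (b : ℝ × ℝ) :
    Function.Injective (T α β γ δ b) := by
  intro x x' h
  rw [T_apply, T_apply, Prod.mk.injEq] at h
  obtain ⟨h1, h2⟩ := h
  have e1 : (α * δ - β * γ) * (x.1 - x'.1) = 0 := by linear_combination δ * h1 - β * h2
  have e2 : (α * δ - β * γ) * (x.2 - x'.2) = 0 := by linear_combination α * h2 - γ * h1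
  have f1 := (mul_eq_zero.1 e1).resolve_left hD
  have f2 := (mul_eq_zero.1 e2).resolve_left hD
  ext
  · linarith
  · linarith

lemma T_surj {α β γ δ : ℝ} (hD : α * δ - β * γ ≠ 0) (b : ℝ × ℝ) :
    Function.Surjective (T α β γ δ b) := by
  intro z
  refine ⟨((δ * (z.1 - b.1) - β * (z.2 - b.2)) / (α * δ - β * γ),
    (α * (z.2 - b.2) - γ * (z.1 - b.1)) / (α * δ - β * γ)), ?_⟩
  rw [T_apply]
  have e1 : α * (δ * (z.1 - b.1) - β * (z.2 - b.2)) + β * (α * (z.2 - b.2) - γ * (z.1 - b.1)) =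
      (α * δ - β * γ) * (z.1 - b.1) := by ring
  have e2 : γ * (δ * (z.1 - b.1) - β * (z.2 - b.2)) + δ * (α * (z.2 - b.2) - γ * (z.1 - b.1)) =
      (α * δ - β * γ) * (z.2 - b.2) := by ring
  ext
  · simp only
    rw [← mul_div_assoc, ← mul_div_assoc, ← add_div, e1, mul_div_cancel_left₀ _ hD]
    ring
  · simp only
    rw [← mul_div_assoc, ← mul_div_assoc, ← add_div, e2, mul_div_cancel_left₀ _ hD]
    ring

lemma T_lintegral {α β γ δ : ℝ} (hD : α * δ - β * γ ≠ 0) (b : ℝ × ℝ) {K : Set (ℝ × ℝ)}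
    (hK : MeasurableSet K) (f : ℝ × ℝ → ℝ≥0∞) :
    ∫⁻ x in T α β γ δ b '' K, f x =
      ∫⁻ x in K, ENNReal.ofReal |α * δ - β * γ| * f (T α β γ δ b x) := by
  rw [lintegral_image_eq_lintegral_abs_det_fderiv_mul volume hK
    (fun x _ => (T_deriv α β γ δ b x).hasFDerivWithinAt) ((T_inj hD b).injOn), Lm_det]

lemma T_volume {α β γ δ : ℝ} (hD : α * δ - β * γ ≠ 0) (b : ℝ × ℝ) {K : Set (ℝ × ℝ)}
    (hK : MeasurableSet K) :
    volume (T α β γ δ b '' K) = ENNReal.ofReal |α * δ - β * γ| * volume K := by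
  have h := T_lintegral hD b hK (fun _ => 1)
  simp only [mul_one, lintegral_const, Measure.restrict_apply_univ, one_mul] at h
  exact h

lemma T_volume_zero {α β γ δ : ℝ} (hD : α * δ - β * γ = 0) (b : ℝ × ℝ) (K : Set (ℝ × ℝ)) :
    volume (T α β γ δ b '' K) = 0 := by
  have h1 : T α β γ δ b '' K = (fun x => x + b) '' ((Lm α β γ δ) '' K) := by
    rw [image_image]
    rfl
  rw [h1]
  have h2 : volume ((Lm α β γ δ) '' K) = 0 := by
    have h3 := Measure.addHaar_image_continuousLinearMap (volume : Measure (ℝ × ℝ))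
      (Lm α β γ δ) K
    have h4 : LinearMap.det ((Lm α β γ δ : (ℝ × ℝ) →L[ℝ] (ℝ × ℝ)) : (ℝ × ℝ) →ₗ[ℝ] (ℝ × ℝ)) =
        α * δ - β * γ := Lm_det α β γ δ
    rw [h4, hD, abs_zero, ENNReal.ofReal_zero, zero_mul] at h3
    exact h3
  rw [image_add_right, measure_preimage_add_right]
  exact h2

lemma T_cont (α β γ δ : ℝ) (b : ℝ × ℝ) : Continuous (T α β γ δ b) := by
  unfold T
  fun_prop

/-- the hypotheses on the property -/
structure GH (G : Set (ℝ × ℝ) → Prop) : Prop where
  tri : G Tri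
  aff : ∀ (α β γ δ : ℝ) (b : ℝ × ℝ) (K : Set (ℝ × ℝ)), α * δ - β * γ ≠ 0 → IsCompact K → G K →
    G (T α β γ δ b '' K)
  shr : ∀ (K : Set (ℝ × ℝ)) (t0 t1 : ℝ), IsCompact K → t0 ≤ 0 → 0 ≤ t1 →
    G (shear t0 '' K) → G (shear t1 '' K) → G K

/-- the triangle with vertices `(0,0)`, `(0,1)`, `(1,t)` -/
def Wt (t : ℝ) : Set (ℝ × ℝ) := {x | 0 ≤ x.1 ∧ t * x.1 ≤ x.2 ∧ x.2 ≤ t * x.1 + 1 - x.1}

/-- constraints on the remaining vertices -/
def Con (t : ℝ) (c : ℝ × ℝ) : Prop := t * c.1 ≤ c.2 ∧ c.1 + c.2 - t * c.1 ≤ 1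

lemma con_convex (t : ℝ) : Convex ℝ {c : ℝ × ℝ | c.1 ≤ 0 ∧ Con t c} := by
  intro x hx y hy a b ha hb hab
  obtain ⟨h1, h2, h3⟩ := hx
  obtain ⟨h4, h5, h6⟩ := hy
  refine ⟨?_, ?_, ?_⟩
  · simp only [Prod.fst_add, Prod.smul_fst, smul_eq_mul]
    nlinarith
  · simp only [Prod.fst_add, Prod.smul_fst, Prod.snd_add, Prod.smul_snd, smul_eq_mul]
    nlinarith
  · simp only [Prod.fst_add, Prod.smul_fst, Prod.snd_add, Prod.smul_snd, smul_eq_mul]
    have : a + b = 1 := hab
    nlinarith

lemma hull_eq {S : Set (ℝ × ℝ)} (h00 : ((0, 0) : ℝ × ℝ) ∈ S) (h01 : ((0, 1) : ℝ × ℝ) ∈ S)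
    {t : ℝ} (hS : ∀ c ∈ S, c.1 ≤ 0 ∧ Con t c) :
    convexHull ℝ (insert ((1, t) : ℝ × ℝ) S) = convexHull ℝ S ∪ Wt t := by
  have hQ : ∀ c ∈ convexHull ℝ S, c.1 ≤ 0 ∧ Con t c := fun c hc =>
    convexHull_min (fun c hc => hS c hc) (con_convex t) hc
  have hQc : Convex ℝ (convexHull ℝ S) := convex_convexHull ℝ S
  have hA : ((0, 0) : ℝ × ℝ) ∈ convexHull ℝ S := subset_convexHull ℝ S h00
  have hB : ((0, 1) : ℝ × ℝ) ∈ convexHull ℝ S := subset_convexHull ℝ S h01
  apply Subset.antisymm
  · rw [convexHull_insert ⟨_, h00⟩]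
    intro z hz
    rw [mem_convexJoin] at hz
    obtain ⟨v, hv, q, hq, hz⟩ := hz
    rw [mem_singleton_iff] at hv
    subst hv
    obtain ⟨s, r, hs, hr, hsr, rfl⟩ := hz
    obtain ⟨h1, h2, h3⟩ := hQ q hq
    have hs1 : s = 1 - r := by linarith
    subst hs1
    have e1 : ((1 - r) • ((1, t) : ℝ × ℝ) + r • q).1 = (1 - r) + r * q.1 := by
      simp
    have e2 : ((1 - r) • ((1, t) : ℝ × ℝ) + r • q).2 = (1 - r) * t + r * q.2 := by
      simp
    by_cases hz : 0 ≤ (1 - r) + r * q.1
    · right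
      refine ⟨?_, ?_, ?_⟩
      · rw [e1]; exact hz
      · rw [e1, e2]
        nlinarith
      · rw [e1, e2]
        nlinarith
    · left
      rw [not_le] at hz
      have hr0 : 0 < r := by
        rcases eq_or_lt_of_le hr with h | h
        · rw [← h] at hz; linarith
        · exact h
      have hq1 : q.1 < 0 := by
        by_contra hc
        rw [not_lt] at hc
        have : 0 ≤ r * q.1 := mul_nonneg hr hc
        linarith
      have hden : 0 < 1 - q.1 := by linarith
      -- crossing point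
      set w2 : ℝ := (q.2 - q.1 * t) / (1 - q.1) with hw2
      have hw0 : 0 ≤ w2 := div_nonneg (by nlinarith) hden.le
      have hw1 : w2 ≤ 1 := by
        rw [hw2, div_le_one hden]
        nlinarith
      have hw : ((0, w2) : ℝ × ℝ) ∈ convexHull ℝ S := by
        have := hQc hA hB (show 0 ≤ 1 - w2 by linarith) hw0 (by ring)
        have e : (1 - w2) • ((0, 0) : ℝ × ℝ) + w2 • ((0, 1) : ℝ × ℝ) = (0, w2) := by
          ext <;> simp
        rwa [e] at this
      -- `z = (1 - ρ) q + ρ w`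
      set ρ : ℝ := (1 - r) * (1 - q.1) / (-q.1) with hρ
      have hnq : 0 < -q.1 := by linarith
      have hρ0 : 0 ≤ ρ := div_nonneg (mul_nonneg hs hden.le) hnq.le
      have hρ1 : ρ ≤ 1 := by
        rw [hρ, div_le_one hnq]
        nlinarith
      have := hQc hq hw (show 0 ≤ 1 - ρ by linarith) hρ0 (by ring)
      have e : (1 - ρ) • q + ρ • ((0, w2) : ℝ × ℝ) = (1 - r) • ((1, t) : ℝ × ℝ) + r • q := by
        have hne : q.1 ≠ 0 := hq1.ne
        have hne2 : (1 - q.1) ≠ 0 := hden.ne'
        ext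
        · simp only [Prod.fst_add, Prod.smul_fst, smul_eq_mul]
          rw [hρ]
          field_simp
          ring
        · simp only [Prod.snd_add, Prod.smul_snd, smul_eq_mul]
          rw [hρ, hw2]
          field_simp
          ring
      rwa [e] at this
  · apply union_subset
    · exact convexHull_mono (subset_insert _ _)
    · rintro x ⟨h1, h2, h3⟩
      have hc : Convex ℝ (convexHull ℝ (insert ((1, t) : ℝ × ℝ) S)) := convex_convexHull ℝ _
      have k1 : ((1, t) : ℝ × ℝ) ∈ convexHull ℝ (insert ((1, t) : ℝ × ℝ) S) :=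
        subset_convexHull ℝ _ (mem_insert _ _)
      have k2 := convexHull_mono (subset_insert ((1, t) : ℝ × ℝ) S) hA
      have k3 := convexHull_mono (subset_insert ((1, t) : ℝ × ℝ) S) hB
      have hx1 : x.1 ≤ 1 := by linarith
      rcases eq_or_lt_of_le hx1 with hx | hx
      · have : x = (1, t) := by
          ext
          · exact hx
          · show x.2 = t
            rw [hx] at h2 h3
            linarith
        rw [this]
        exact k1
      · have hd : 0 < 1 - x.1 := by linarith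
        set m : ℝ := (x.2 - t * x.1) / (1 - x.1) with hm
        have hm0 : 0 ≤ m := div_nonneg (by linarith) hd.le
        have hm1 : m ≤ 1 := by
          rw [hm, div_le_one hd]
          linarith
        have k4 := hc k2 k3 (show 0 ≤ 1 - m by linarith) hm0 (by ring)
        have k5 := hc k1 k4 h1 hd.le (by ring)
        have e : x.1 • ((1, t) : ℝ × ℝ) + (1 - x.1) • ((1 - m) • ((0, 0) : ℝ × ℝ) +
            m • ((0, 1) : ℝ × ℝ)) = x := by
          ext
          · simp
          · simp only [Prod.snd_add, Prod.smul_snd, smul_eq_mul]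
            rw [hm]
            field_simp
            ring
        rwa [e] at k5

lemma hull_shear {S : Set (ℝ × ℝ)} (h00 : ((0, 0) : ℝ × ℝ) ∈ S) (h01 : ((0, 1) : ℝ × ℝ) ∈ S)
    {t : ℝ} (hS : ∀ c ∈ S, c.1 ≤ 0 ∧ Con t c) (hS0 : ∀ c ∈ S, c.1 ≤ 0 ∧ Con 0 c) :
    convexHull ℝ (insert ((1, t) : ℝ × ℝ) S) =
      shear t '' convexHull ℝ (insert ((1, 0) : ℝ × ℝ) S) := by
  rw [hull_eq h00 h01 hS, hull_eq h00 h01 hS0, image_union]
  have hQ : ∀ c ∈ convexHull ℝ S, c.1 ≤ 0 ∧ Con t c := fun c hc =>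
    convexHull_min (fun c hc => hS c hc) (con_convex t) hc
  congr 1
  · ext x
    constructor
    · intro hx
      refine ⟨x, hx, ?_⟩
      unfold shear
      rw [max_eq_right (hQ x hx).1]
      ext <;> simp
    · rintro ⟨z, hz, rfl⟩
      have : shear t z = z := by
        unfold shear
        rw [max_eq_right (hQ z hz).1]
        ext <;> simp
      rwa [this]
  · ext x
    constructor
    · rintro ⟨h1, h2, h3⟩
      refine ⟨(x.1, x.2 - t * x.1), ⟨h1, ?_, ?_⟩, ?_⟩
      · show 0 * x.1 ≤ x.2 - t * x.1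
        linarith
      · show x.2 - t * x.1 ≤ 0 * x.1 + 1 - x.1
        linarith
      · unfold shear
        simp only
        rw [max_eq_left h1]
        ext
        · rfl
        · show x.2 - t * x.1 + t * x.1 = x.2
          ring
    · rintro ⟨z, ⟨h1, h2, h3⟩, rfl⟩
      unfold shear
      rw [max_eq_left h1]
      refine ⟨h1, ?_, ?_⟩
      · show t * z.1 ≤ z.2 + t * z.1
        linarith
      · show z.2 + t * z.1 ≤ t * z.1 + 1 - z.1
        linarith

lemma hull_drop {S : Set (ℝ × ℝ)} {b : ℝ × ℝ} (hb : b ∈ convexHull ℝ (S \ {b})) :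
    convexHull ℝ S = convexHull ℝ (S \ {b}) := by
  apply Subset.antisymm
  · apply convexHull_min _ (convex_convexHull ℝ _)
    intro x hx
    by_cases h : x = b
    · rw [h]; exact hb
    · exact subset_convexHull ℝ _ ⟨hx, h⟩
  · exact convexHull_mono sdiff_subset

lemma tri_eq_hull : Tri = convexHull ℝ (insert ((1, 0) : ℝ × ℝ) {(0, 0), (0, 1)}) := by
  rw [hull_eq (S := {(0, 0), (0, 1)}) (by simp) (by simp) (t := 0) (by
    intro c hc
    rcases hc with rfl | rfl
    · refine ⟨le_rfl, ?_, ?_⟩ <;> norm_num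
    · refine ⟨le_rfl, ?_, ?_⟩ <;> norm_num)]
  have h1 : Wt 0 = Tri := by
    ext x
    constructor
    · rintro ⟨h1, h2, h3⟩
      exact ⟨h1, by linarith, by linarith⟩
    · rintro ⟨h1, h2, h3⟩
      exact ⟨h1, by linarith, by linarith⟩
  rw [h1, union_eq_right.2]
  apply convexHull_min
  · rintro c (rfl | rfl)
    · exact ⟨le_rfl, le_rfl, by norm_num⟩
    · exact ⟨le_rfl, zero_le_one, by norm_num⟩
  · intro x hx y hy a b ha hb hab
    obtain ⟨h1, h2, h3⟩ := hx
    obtain ⟨h4, h5, h6⟩ := hy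
    refine ⟨?_, ?_, ?_⟩
    · simp only [Prod.fst_add, Prod.smul_fst, smul_eq_mul]
      positivity
    · simp only [Prod.snd_add, Prod.smul_snd, smul_eq_mul]
      positivity
    · simp only [Prod.fst_add, Prod.smul_fst, Prod.snd_add, Prod.smul_snd, smul_eq_mul]
      nlinarith

lemma T_hull (α β γ δ : ℝ) (b : ℝ × ℝ) (S : Set (ℝ × ℝ)) :
    T α β γ δ b '' convexHull ℝ S = convexHull ℝ (T α β γ δ b '' S) := by
  set φ : (ℝ × ℝ) →ᵃ[ℝ] (ℝ × ℝ) :=
    ((Lm α β γ δ : (ℝ × ℝ) →L[ℝ] (ℝ × ℝ)) : (ℝ × ℝ) →ₗ[ℝ] (ℝ × ℝ)).toAffineMap +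
      AffineMap.const ℝ (ℝ × ℝ) b with hφ
  have h1 : (φ : ℝ × ℝ → ℝ × ℝ) = T α β γ δ b := by
    ext x <;> rfl
  have h2 := φ.image_convexHull S
  rwa [h1] at h2

lemma tri_meas : MeasurableSet Tri := by
  apply IsClosed.measurableSet
  have h1 : IsClosed {x : ℝ × ℝ | 0 ≤ x.1} := isClosed_le continuous_const continuous_fst
  have h2 : IsClosed {x : ℝ × ℝ | 0 ≤ x.2} := isClosed_le continuous_const continuous_snd
  have h3 : IsClosed {x : ℝ × ℝ | x.1 + x.2 ≤ 1} :=
    isClosed_le (continuous_fst.add continuous_snd) continuous_const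
  exact h1.inter (h2.inter h3)

lemma tri_comp : IsCompact Tri := by
  rw [tri_eq_hull]
  exact (((finite_singleton _).insert _).insert _).isCompact_convexHull (𝕜 := ℝ)

lemma good_triangle {G : Set (ℝ × ℝ) → Prop} (hp : GH G) (a b c : ℝ × ℝ)
    (hv : volume (convexHull ℝ ({b, a, c} : Set (ℝ × ℝ))) ≠ 0) :
    G (convexHull ℝ ({b, a, c} : Set (ℝ × ℝ))) := by
  set Tm := T (b.1 - a.1) (c.1 - a.1) (b.2 - a.2) (c.2 - a.2) a with hTm
  have h1 : convexHull ℝ ({b, a, c} : Set (ℝ × ℝ)) = Tm '' Tri := by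
    rw [tri_eq_hull, hTm, T_hull, image_insert_eq, image_pair]
    congr 3
    · rw [T_apply]
      ext
      · show b.1 = (b.1 - a.1) * 1 + (c.1 - a.1) * 0 + a.1
        ring
      · show b.2 = (b.2 - a.2) * 1 + (c.2 - a.2) * 0 + a.2
        ring
    · rw [T_apply]
      ext
      · show a.1 = (b.1 - a.1) * 0 + (c.1 - a.1) * 0 + a.1
        ring
      · show a.2 = (b.2 - a.2) * 0 + (c.2 - a.2) * 0 + a.2
        ring
    · rw [T_apply]
      congr 1
      ext
      · show c.1 = (b.1 - a.1) * 0 + (c.1 - a.1) * 1 + a.1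
        ring
      · show c.2 = (b.2 - a.2) * 0 + (c.2 - a.2) * 1 + a.2
        ring
  rw [h1] at hv ⊢
  by_cases hD : (b.1 - a.1) * (c.2 - a.2) - (c.1 - a.1) * (b.2 - a.2) = 0
  · exact absurd (T_volume_zero hD a Tri) hv
  · exact hp.aff _ _ _ _ a Tri hD tri_comp hp.tri

lemma good_small {G : Set (ℝ × ℝ) → Prop} (hp : GH G) (S : Finset (ℝ × ℝ)) (hS : S.card ≤ 3)
    (hv : volume (convexHull ℝ (S : Set (ℝ × ℝ))) ≠ 0) :
    G (convexHull ℝ (S : Set (ℝ × ℝ))) := by
  have h : ∃ a b c : ℝ × ℝ, (S : Set (ℝ × ℝ)) = {b, a, c} := by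
    have hne : S.Nonempty := by
      rw [Finset.nonempty_iff_ne_empty]
      rintro rfl
      apply hv
      simp
    have h1 : 0 < S.card := Finset.card_pos.2 hne
    have h2 : S.card = 1 ∨ S.card = 2 ∨ S.card = 3 := by omega
    rcases h2 with h2 | h2 | h2
    · obtain ⟨a, rfl⟩ := Finset.card_eq_one.1 h2
      exact ⟨a, a, a, by simp⟩
    · obtain ⟨a, b, _, rfl⟩ := Finset.card_eq_two.1 h2
      exact ⟨a, a, b, by simp⟩
    · obtain ⟨a, b, c, _, _, _, rfl⟩ := Finset.card_eq_three.1 h2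
      exact ⟨b, a, c, by simp⟩
  obtain ⟨a, b, c, h⟩ := h
  rw [h] at hv ⊢
  exact good_triangle hp a b c hv

/-- the normalised induction step -/
lemma step_norm {G : Set (ℝ × ℝ) → Prop} (hp : GH G) (S : Finset (ℝ × ℝ)) (hcard : 3 ≤ S.card)
    (h00 : ((0, 0) : ℝ × ℝ) ∈ S) (h01 : ((0, 1) : ℝ × ℝ) ∈ S)
    (hS : ∀ c ∈ S, 0 ≤ c.2 ∧ c.1 + c.2 ≤ 1)
    (hneg : ∀ c ∈ S, c ≠ (0, 0) → c ≠ (0, 1) → c.1 < 0)
    (IH : ∀ S' : Finset (ℝ × ℝ), S'.card ≤ S.card → volume (convexHull ℝ (S' : Set (ℝ × ℝ))) ≠ 0 →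
      G (convexHull ℝ (S' : Set (ℝ × ℝ))))
    (hv : volume (convexHull ℝ (insert ((1, 0) : ℝ × ℝ) (S : Set (ℝ × ℝ)))) ≠ 0) :
    G (convexHull ℝ (insert ((1, 0) : ℝ × ℝ) (S : Set (ℝ × ℝ)))) := by
  classical
  set R := S.filter (fun c => c.1 < 0) with hR
  have hRne : R.Nonempty := by
    by_contra hcon
    rw [Finset.not_nonempty_iff_eq_empty] at hcon
    have h1 : S ⊆ {(0, 0), (0, 1)} := by
      intro c hc
      by_contra h2
      rw [Finset.mem_insert, Finset.mem_singleton, not_or] at h2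
      have h3 := hneg c hc h2.1 h2.2
      have : c ∈ R := Finset.mem_filter.2 ⟨hc, h3⟩
      rw [hcon] at this
      exact absurd this (Finset.notMem_empty c)
    have h2 := Finset.card_le_card h1
    have h3 : ({(0, 0), (0, 1)} : Finset (ℝ × ℝ)).card ≤ 2 := Finset.card_le_two
    omega
  obtain ⟨c1, hc1, hmin1⟩ := Finset.exists_min_image R
    (fun c => (1 - c.1 - c.2) / (-c.1)) hRne
  obtain ⟨c0, hc0, hmin0⟩ := Finset.exists_min_image R (fun c => c.2 / (-c.1)) hRne
  obtain ⟨hc1S, hc1n⟩ := Finset.mem_filter.1 hc1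
  obtain ⟨hc0S, hc0n⟩ := Finset.mem_filter.1 hc0
  set t1 := (1 - c1.1 - c1.2) / (-c1.1) with ht1
  set t0 := -(c0.2 / (-c0.1)) with ht0
  have hn1 : 0 < -c1.1 := by linarith
  have hn0 : 0 < -c0.1 := by linarith
  have ht1p : 0 ≤ t1 := div_nonneg (by linarith [(hS c1 hc1S).2]) hn1.le
  have ht0n : t0 ≤ 0 := by
    rw [ht0, neg_nonpos]
    exact div_nonneg (hS c0 hc0S).1 hn0.le
  have hle : ∀ c ∈ S, c.1 ≤ 0 := by
    intro c hc
    by_cases h1 : c = (0, 0)
    · rw [h1]
    · by_cases h2 : c = (0, 1)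
      · rw [h2]
      · exact (hneg c hc h1 h2).le
  have hcon0 : ∀ c ∈ (S : Set (ℝ × ℝ)), c.1 ≤ 0 ∧ Con 0 c := by
    intro c hc
    have h1 := hS c hc
    exact ⟨hle c hc, by rw [zero_mul]; exact h1.1, by rw [zero_mul, sub_zero]; exact h1.2⟩
  have hcon1 : ∀ c ∈ (S : Set (ℝ × ℝ)), c.1 ≤ 0 ∧ Con t1 c := by
    intro c hc
    have h1 := hS c hc
    have h2 := hle c hc
    refine ⟨h2, ?_, ?_⟩
    · nlinarith
    · rcases eq_or_lt_of_le h2 with h3 | h3
      · rw [h3, mul_zero, sub_zero]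
        have := h1.2
        rw [h3] at this
        exact this
      · have h4 := hmin1 c (Finset.mem_filter.2 ⟨hc, h3⟩)
        have h5 : 0 < -c.1 := by linarith
        have h6 : t1 * (-c.1) ≤ 1 - c.1 - c.2 := (le_div_iff₀ h5).1 h4
        linarith
  have hcont0 : ∀ c ∈ (S : Set (ℝ × ℝ)), c.1 ≤ 0 ∧ Con t0 c := by
    intro c hc
    have h1 := hS c hc
    have h2 := hle c hc
    have h7 : 0 ≤ t0 * c.1 := mul_nonneg_of_nonpos_of_nonpos ht0n h2
    refine ⟨h2, ?_, by linarith [h1.2]⟩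
    rcases eq_or_lt_of_le h2 with h3 | h3
    · rw [h3, mul_zero]
      exact h1.1
    · have h4 := hmin0 c (Finset.mem_filter.2 ⟨hc, h3⟩)
      have h5 : 0 < -c.1 := by linarith
      have h6 : c0.2 / (-c0.1) * (-c.1) ≤ c.2 := (le_div_iff₀ h5).1 h4
      have h8 : t0 * c.1 = c0.2 / (-c0.1) * (-c.1) := by rw [ht0]; ring
      rw [h8]
      exact h6
  have e1 := hull_shear (S := (S : Set (ℝ × ℝ))) h00 h01 hcon1 hcon0
  have e0 := hull_shear (S := (S : Set (ℝ × ℝ))) h00 h01 hcont0 hcon0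
  set K0 := convexHull ℝ (insert ((1, 0) : ℝ × ℝ) (S : Set (ℝ × ℝ))) with hK0
  have hK0c : IsCompact K0 := (S.finite_toSet.insert ((1, 0) : ℝ × ℝ)).isCompact_convexHull (𝕜 := ℝ)
  -- end 1
  have g1 : G (shear t1 '' K0) := by
    have hb : ((0, 1) : ℝ × ℝ) ∈ convexHull ℝ
        ((insert ((1, t1) : ℝ × ℝ) (S : Set (ℝ × ℝ))) \ {(0, 1)}) := by
      have k1 : ((1, t1) : ℝ × ℝ) ∈ convexHull ℝ
          ((insert ((1, t1) : ℝ × ℝ) (S : Set (ℝ × ℝ))) \ {(0, 1)}) := by
        apply subset_convexHull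
        refine ⟨mem_insert _ _, ?_⟩
        intro h
        have := congrArg Prod.fst (mem_singleton_iff.1 h)
        simp at this
      have k2 : c1 ∈ convexHull ℝ
          ((insert ((1, t1) : ℝ × ℝ) (S : Set (ℝ × ℝ))) \ {(0, 1)}) := by
        apply subset_convexHull
        refine ⟨mem_insert_of_mem _ hc1S, ?_⟩
        intro h
        rw [mem_singleton_iff.1 h] at hc1n
        simp at hc1n
      have hd : 0 < 1 - c1.1 := by linarith
      have k3 := (convex_convexHull ℝ
        ((insert ((1, t1) : ℝ × ℝ) (S : Set (ℝ × ℝ))) \ {(0, 1)})) k1 k2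
        (show 0 ≤ -c1.1 / (1 - c1.1) by positivity) (show 0 ≤ 1 / (1 - c1.1) by positivity)
        (by field_simp; ring)
      have hne : c1.1 ≠ 0 := hc1n.ne
      have e : (-c1.1 / (1 - c1.1)) • ((1, t1) : ℝ × ℝ) + (1 / (1 - c1.1)) • c1 = (0, 1) := by
        ext
        · simp only [Prod.fst_add, Prod.smul_fst, smul_eq_mul]
          field_simp
          ring
        · simp only [Prod.snd_add, Prod.smul_snd, smul_eq_mul]
          rw [ht1]
          field_simp
          ring
      rwa [e] at k3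
    have hd := hull_drop hb
    rw [← e1, hd]
    have hcast : ((insert ((1, t1) : ℝ × ℝ) (S : Set (ℝ × ℝ))) \ {(0, 1)}) =
        (((insert ((1, t1) : ℝ × ℝ) S).erase (0, 1) : Finset (ℝ × ℝ)) : Set (ℝ × ℝ)) := by
      rw [Finset.coe_erase, Finset.coe_insert]
    rw [hcast]
    apply IH
    · rw [Finset.card_erase_of_mem (Finset.mem_insert_of_mem h01)]
      have := Finset.card_insert_le ((1, t1) : ℝ × ℝ) S
      omega
    · rw [← hcast, ← hd, e1, shear_volume]
      exact hv
  have g0 : G (shear t0 '' K0) := by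
    have hb : ((0, 0) : ℝ × ℝ) ∈ convexHull ℝ
        ((insert ((1, t0) : ℝ × ℝ) (S : Set (ℝ × ℝ))) \ {(0, 0)}) := by
      have k1 : ((1, t0) : ℝ × ℝ) ∈ convexHull ℝ
          ((insert ((1, t0) : ℝ × ℝ) (S : Set (ℝ × ℝ))) \ {(0, 0)}) := by
        apply subset_convexHull
        refine ⟨mem_insert _ _, ?_⟩
        intro h
        have := congrArg Prod.fst (mem_singleton_iff.1 h)
        simp at this
      have k2 : c0 ∈ convexHull ℝ
          ((insert ((1, t0) : ℝ × ℝ) (S : Set (ℝ × ℝ))) \ {(0, 0)}) := by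
        apply subset_convexHull
        refine ⟨mem_insert_of_mem _ hc0S, ?_⟩
        intro h
        rw [mem_singleton_iff.1 h] at hc0n
        simp at hc0n
      have hd : 0 < 1 - c0.1 := by linarith
      have k3 := (convex_convexHull ℝ
        ((insert ((1, t0) : ℝ × ℝ) (S : Set (ℝ × ℝ))) \ {(0, 0)})) k1 k2
        (show 0 ≤ -c0.1 / (1 - c0.1) by positivity) (show 0 ≤ 1 / (1 - c0.1) by positivity)
        (by field_simp; ring)
      have hne : c0.1 ≠ 0 := hc0n.ne
      have e : (-c0.1 / (1 - c0.1)) • ((1, t0) : ℝ × ℝ) + (1 / (1 - c0.1)) • c0 = (0, 0) := by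
        ext
        · simp only [Prod.fst_add, Prod.smul_fst, smul_eq_mul]
          field_simp
          ring
        · simp only [Prod.snd_add, Prod.smul_snd, smul_eq_mul]
          rw [ht0]
          field_simp
          ring
      rwa [e] at k3
    have hd := hull_drop hb
    rw [← e0, hd]
    have hcast : ((insert ((1, t0) : ℝ × ℝ) (S : Set (ℝ × ℝ))) \ {(0, 0)}) =
        (((insert ((1, t0) : ℝ × ℝ) S).erase (0, 0) : Finset (ℝ × ℝ)) : Set (ℝ × ℝ)) := by
      rw [Finset.coe_erase, Finset.coe_insert]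
    rw [hcast]
    apply IH
    · rw [Finset.card_erase_of_mem (Finset.mem_insert_of_mem h00)]
      have := Finset.card_insert_le ((1, t0) : ℝ × ℝ) S
      omega
    · rw [← hcast, ← hd, e0, shear_volume]
      exact hv
  exact hp.shr K0 t0 t1 hK0c ht0n ht1p g0 g1

lemma line_null {a b : ℝ} (hab : ¬(a = 0 ∧ b = 0)) (c : ℝ) :
    volume {x : ℝ × ℝ | a * x.1 + b * x.2 = c} = 0 := by
  set L : (ℝ × ℝ) →ₗ[ℝ] ℝ := a • LinearMap.fst ℝ ℝ ℝ + b • LinearMap.snd ℝ ℝ ℝ with hL
  have hLx : ∀ x, L x = a * x.1 + b * x.2 := fun x => rfl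
  rcases eq_empty_or_nonempty {x : ℝ × ℝ | a * x.1 + b * x.2 = c} with h | ⟨x₀, hx₀⟩
  · rw [h]; exact measure_empty
  · have h0 : volume ((LinearMap.ker L : Submodule ℝ (ℝ × ℝ)) : Set (ℝ × ℝ)) = 0 := by
      apply Measure.addHaar_submodule
      intro htop
      have h1 : ((1, 0) : ℝ × ℝ) ∈ LinearMap.ker L := by rw [htop]; trivial
      have h2 : ((0, 1) : ℝ × ℝ) ∈ LinearMap.ker L := by rw [htop]; trivial
      rw [LinearMap.mem_ker, hLx] at h1 h2
      apply hab
      constructor
      · simpa using h1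
      · simpa using h2
    have h1 : {x : ℝ × ℝ | a * x.1 + b * x.2 = c} =
        (fun x => x₀ + x) '' ((LinearMap.ker L : Submodule ℝ (ℝ × ℝ)) : Set (ℝ × ℝ)) := by
      ext x
      constructor
      · intro hx
        refine ⟨x - x₀, ?_, by simp⟩
        show L (x - x₀) = 0
        rw [map_sub, hLx, hLx, sub_eq_zero]
        exact (show a * x.1 + b * x.2 = c from hx).trans
          (show a * x₀.1 + b * x₀.2 = c from hx₀).symm
      · rintro ⟨z, hz, rfl⟩
        have hz' : L z = 0 := hz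
        rw [hLx] at hz'
        have hx' : a * x₀.1 + b * x₀.2 = c := hx₀
        show a * (x₀.1 + z.1) + b * (x₀.2 + z.2) = c
        linarith
    rw [h1, image_add_left, measure_preimage_add]
    exact h0

/-- the tangent points seen from `v` and the coordinates of the other points -/
lemma tangents {Q : Set (ℝ × ℝ)} (S : Finset (ℝ × ℝ)) (v : ℝ × ℝ) (hne : S.Nonempty)
    (hQ : convexHull ℝ (S : Set (ℝ × ℝ)) = Q) (hv : v ∉ Q)
    (hvol : volume (convexHull ℝ (insert v (S : Set (ℝ × ℝ)))) ≠ 0) :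
    ∃ A ∈ S, ∃ B ∈ S, (v.1 - A.1) * (B.2 - A.2) - (B.1 - A.1) * (v.2 - A.2) ≠ 0 ∧
      ∀ C ∈ S, ∃ x y : ℝ, 0 ≤ x ∧ 0 ≤ y ∧
        C.1 - v.1 = x * (A.1 - v.1) + y * (B.1 - v.1) ∧
        C.2 - v.2 = x * (A.2 - v.2) + y * (B.2 - v.2) := by
  have hQc : Convex ℝ Q := hQ ▸ convex_convexHull ℝ _
  have hQcl : IsClosed Q := by
    rw [← hQ]
    exact (S.finite_toSet.isCompact_convexHull ℝ).isClosed
  obtain ⟨f, u, hfu, hfv⟩ := geometric_hahn_banach_closed_point hQc hQcl hv
  set f1 := f (1, 0) with hf1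
  set f2 := f (0, 1) with hf2
  have hf : ∀ x : ℝ × ℝ, f x = f1 * x.1 + f2 * x.2 := by
    intro x
    have : x = x.1 • ((1, 0) : ℝ × ℝ) + x.2 • ((0, 1) : ℝ × ℝ) := by
      ext <;> simp
    conv_lhs => rw [this]
    rw [map_add, map_smul, map_smul, smul_eq_mul, smul_eq_mul]
    ring
  set φ : ℝ × ℝ → ℝ := fun s => f1 * (v.1 - s.1) + f2 * (v.2 - s.2) with hφ
  set g : ℝ × ℝ → ℝ := fun s => -f2 * (s.1 - v.1) + f1 * (s.2 - v.2) with hg
  have hφpos : ∀ s ∈ S, 0 < φ s := by
    intro s hs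
    have h1 := hfu s (by rw [← hQ]; exact subset_convexHull ℝ _ hs)
    rw [hf] at h1 hfv
    rw [hφ]
    simp only
    linarith
  obtain ⟨A, hA, hmin⟩ := Finset.exists_min_image S (fun s => g s / φ s) hne
  obtain ⟨B, hB, hmax⟩ := Finset.exists_max_image S (fun s => g s / φ s) hne
  have hφA := hφpos A hA
  have hφB := hφpos B hB
  have hN : 0 < f1 ^ 2 + f2 ^ 2 := by
    by_contra hcon
    have h1 : f1 = 0 := by nlinarith [sq_nonneg f1, sq_nonneg f2]
    have h2 : f2 = 0 := by nlinarith [sq_nonneg f1, sq_nonneg f2]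
    rw [hφ] at hφA
    simp only [h1, h2] at hφA
    linarith
  set σA := g A / φ A with hσA
  set σB := g B / φ B with hσB
  have hgA : g A = φ A * σA := by rw [hσA]; field_simp
  have hgB : g B = φ B * σB := by rw [hσB]; field_simp
  have hAB : σA < σB := by
    rcases lt_or_eq_of_le (hmin B hB) with h | h
    · exact h
    · exfalso
      apply hvol
      have hall : ∀ s ∈ S, g s = σA * φ s := by
        intro s hs
        have h1 : σA ≤ g s / φ s := hmin s hs
        have h2 : g s / φ s ≤ σB := hmax s hs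
        have h3 : g s / φ s = σA := le_antisymm (h2.trans_eq h.symm) h1
        have h4 := hφpos s hs
        rw [← h3]
        field_simp
      -- everything lies on a line
      have hsub : convexHull ℝ (insert v (S : Set (ℝ × ℝ))) ⊆
          {x : ℝ × ℝ | (-f2 + σA * f1) * x.1 + (f1 + σA * f2) * x.2 =
            (-f2 + σA * f1) * v.1 + (f1 + σA * f2) * v.2} := by
        apply convexHull_min
        · intro s hs
          rcases hs with rfl | hs
          · rfl
          · have h1 := hall s hs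
            rw [hg, hφ] at h1
            simp only at h1
            show _ = _
            linarith
        · intro x hx y hy a b _ _ hab
          have hx' : (-f2 + σA * f1) * x.1 + (f1 + σA * f2) * x.2 =
            (-f2 + σA * f1) * v.1 + (f1 + σA * f2) * v.2 := hx
          have hy' : (-f2 + σA * f1) * y.1 + (f1 + σA * f2) * y.2 =
            (-f2 + σA * f1) * v.1 + (f1 + σA * f2) * v.2 := hy
          show (-f2 + σA * f1) * (a * x.1 + b * y.1) + (f1 + σA * f2) * (a * x.2 + b * y.2) = _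
          linear_combination a * hx' + b * hy' +
            ((-f2 + σA * f1) * v.1 + (f1 + σA * f2) * v.2) * hab
      refine measure_mono_null hsub (line_null ?_ _)
      rintro ⟨h1, h2⟩
      have h3 : (f1 ^ 2 + f2 ^ 2) = 0 := by linear_combination f1 * h2 - f2 * h1
      linarith
  refine ⟨A, hA, B, hB, ?_, ?_⟩
  · intro hD
    have h1 : (f1 ^ 2 + f2 ^ 2) * ((v.1 - A.1) * (B.2 - A.2) - (B.1 - A.1) * (v.2 - A.2)) =
        φ A * φ B * (σB - σA) := by
      have h2 : φ A * φ B * (σB - σA) = φ A * g B - φ B * g A := by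
        rw [hgA, hgB]; ring
      rw [h2, hφ, hg]
      simp only
      ring
    rw [hD, mul_zero] at h1
    have : 0 < φ A * φ B * (σB - σA) := by
      have : 0 < σB - σA := by linarith
      positivity
    linarith
  · intro C hC
    have hφC := hφpos C hC
    set σC := g C / φ C with hσC
    have hgC : g C = φ C * σC := by rw [hσC]; field_simp
    have h1 : σA ≤ σC := hmin C hC
    have h2 : σC ≤ σB := hmax C hC
    have hd : 0 < σB - σA := by linarith
    refine ⟨φ C * ((σB - σC) / (σB - σA)) / φ A, φ C * ((σC - σA) / (σB - σA)) / φ B, ?_, ?_, ?_⟩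
    · have : 0 ≤ σB - σC := by linarith
      positivity
    · have : 0 ≤ σC - σA := by linarith
      positivity
    · set x := φ C * ((σB - σC) / (σB - σA)) / φ A with hx
      set y := φ C * ((σC - σA) / (σB - σA)) / φ B with hy
      have e1 : φ C = x * φ A + y * φ B := by
        rw [hx, hy]
        field_simp
        ring
      have e2 : g C = x * g A + y * g B := by
        rw [hgA, hgB, hgC, hx, hy]
        field_simp
        ring
      rw [hφ] at e1
      rw [hg] at e2
      simp only at e1 e2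
      constructor
      · have : (f1 ^ 2 + f2 ^ 2) * (C.1 - v.1 - (x * (A.1 - v.1) + y * (B.1 - v.1))) = 0 := by
          linear_combination -f1 * e1 - f2 * e2
        have := (mul_eq_zero.1 this).resolve_left hN.ne'
        linarith
      · have : (f1 ^ 2 + f2 ^ 2) * (C.2 - v.2 - (x * (A.2 - v.2) + y * (B.2 - v.2))) = 0 := by
          linear_combination -f2 * e1 + f1 * e2
        have := (mul_eq_zero.1 this).resolve_left hN.ne'
        linarith

theorem good_poly {G : Set (ℝ × ℝ) → Prop} (hp : GH G) : ∀ n : ℕ, ∀ S : Finset (ℝ × ℝ), S.card ≤ n →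
    volume (convexHull ℝ (S : Set (ℝ × ℝ))) ≠ 0 → G (convexHull ℝ (S : Set (ℝ × ℝ))) := by
  classical
  intro n
  induction n with
  | zero => exact fun S hS hv => good_small hp S (by omega) hv
  | succ n ih =>
    intro S hS hv
    by_cases h3 : S.card ≤ 3
    · exact good_small hp S h3 hv
    by_cases hpos : ∃ b ∈ S, b ∈ convexHull ℝ ((S : Set (ℝ × ℝ)) \ {b})
    · obtain ⟨b, hb, hb2⟩ := hpos
      have h1 := hull_drop hb2
      rw [h1, ← Finset.coe_erase] at hv ⊢
      apply ih _ _ hv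
      rw [Finset.card_erase_of_mem hb]
      omega
    · have hconv : ∀ b ∈ S, b ∉ convexHull ℝ ((S : Set (ℝ × ℝ)) \ {b}) := fun b hb h =>
        hpos ⟨b, hb, h⟩
      have hne : S.Nonempty := Finset.card_pos.1 (by omega)
      obtain ⟨v, hvS⟩ := hne
      set S' := S.erase v with hS'
      have hcard : S'.card = S.card - 1 := Finset.card_erase_of_mem hvS
      have hins : insert v (S' : Set (ℝ × ℝ)) = (S : Set (ℝ × ℝ)) := by
        rw [hS', Finset.coe_erase, insert_sdiff_singleton, insert_eq_of_mem]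
        exact hvS
      have hvn : v ∉ convexHull ℝ (S' : Set (ℝ × ℝ)) := by
        rw [hS', Finset.coe_erase]
        exact hconv v hvS
      obtain ⟨A, hA, B, hB, hD, hcoord⟩ := tangents S' v (Finset.card_pos.1 (by omega)) rfl hvn
        (by rw [hins]; exact hv)
      set Tm := T (v.1 - A.1) (B.1 - A.1) (v.2 - A.2) (B.2 - A.2) A with hTm
      have hinj : Function.Injective Tm := T_inj hD A
      have hsurj : Function.Surjective Tm := T_surj hD A
      set e : (ℝ × ℝ) ≃ (ℝ × ℝ) := Equiv.ofBijective Tm ⟨hinj, hsurj⟩ with he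
      have heT : ∀ x, e x = Tm x := fun x => rfl
      have t00 : Tm (0, 0) = A := by
        rw [hTm, T_apply]
        ext
        · show (v.1 - A.1) * 0 + (B.1 - A.1) * 0 + A.1 = A.1
          ring
        · show (v.2 - A.2) * 0 + (B.2 - A.2) * 0 + A.2 = A.2
          ring
      have t01 : Tm (0, 1) = B := by
        rw [hTm, T_apply]
        ext
        · show (v.1 - A.1) * 0 + (B.1 - A.1) * 1 + A.1 = B.1
          ring
        · show (v.2 - A.2) * 0 + (B.2 - A.2) * 1 + A.2 = B.2
          ring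
      have t10 : Tm (1, 0) = v := by
        rw [hTm, T_apply]
        ext
        · show (v.1 - A.1) * 1 + (B.1 - A.1) * 0 + A.1 = v.1
          ring
        · show (v.2 - A.2) * 1 + (B.2 - A.2) * 0 + A.2 = v.2
          ring
      set S1 := S'.map e.symm.toEmbedding with hS1
      have hS1card : S1.card = S'.card := Finset.card_map _
      have hmem : ∀ c, c ∈ S1 ↔ Tm c ∈ S' := by
        intro c
        rw [hS1, Finset.mem_map]
        constructor
        · rintro ⟨s, hs, rfl⟩
          show e (e.symm s) ∈ S'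
          rwa [Equiv.apply_symm_apply]
        · intro h
          exact ⟨Tm c, h, by show e.symm (e c) = c; exact e.symm_apply_apply c⟩
      have himg : Tm '' (insert ((1, 0) : ℝ × ℝ) (S1 : Set (ℝ × ℝ))) = (S : Set (ℝ × ℝ)) := by
        rw [image_insert_eq, t10, ← hins]
        congr 1
        ext x
        constructor
        · rintro ⟨c, hc, rfl⟩
          exact (hmem c).1 hc
        · intro hx
          obtain ⟨c, rfl⟩ := hsurj x
          exact ⟨c, (hmem c).2 hx, rfl⟩
      have hhull : Tm '' convexHull ℝ (insert ((1, 0) : ℝ × ℝ) (S1 : Set (ℝ × ℝ))) =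
          convexHull ℝ (S : Set (ℝ × ℝ)) := by
        rw [hTm, T_hull, ← hTm, himg]
      have hKc : IsCompact (convexHull ℝ (insert ((1, 0) : ℝ × ℝ) (S1 : Set (ℝ × ℝ)))) :=
        (S1.finite_toSet.insert ((1, 0) : ℝ × ℝ)).isCompact_convexHull (𝕜 := ℝ)
      have hKm : MeasurableSet (convexHull ℝ (insert ((1, 0) : ℝ × ℝ) (S1 : Set (ℝ × ℝ)))) :=
        hKc.isClosed.measurableSet
      -- the coordinates
      have hco : ∀ c ∈ S1, 0 ≤ c.2 ∧ c.1 + c.2 ≤ 1 := by
        intro c hc
        obtain ⟨x, y, hx, hy, e1, e2⟩ := hcoord (Tm c) ((hmem c).1 hc)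
        have h1 : Tm c = Tm (1 - x - y, y) := by
          rw [hTm, T_apply] at e1 e2 ⊢
          rw [T_apply]
          simp only at e1 e2 ⊢
          ext
          · simp only
            linarith
          · simp only
            linarith
        have h2 := hinj h1
        rw [h2]
        exact ⟨hy, by show 1 - x - y + y ≤ 1; linarith⟩
      have hneg : ∀ c ∈ S1, c ≠ (0, 0) → c ≠ (0, 1) → c.1 < 0 := by
        intro c hc hc0 hc1
        by_contra hcon
        rw [not_lt] at hcon
        have h1 := hco c hc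
        have hcS : Tm c ∈ S' := (hmem c).1 hc
        have hcS2 : Tm c ∈ S := Finset.mem_of_mem_erase hcS
        apply hconv (Tm c) hcS2
        have k1 : v ∈ convexHull ℝ ((S : Set (ℝ × ℝ)) \ {Tm c}) := by
          apply subset_convexHull
          refine ⟨hvS, ?_⟩
          intro h
          exact Finset.ne_of_mem_erase hcS (mem_singleton_iff.1 h).symm
        have k2 : A ∈ convexHull ℝ ((S : Set (ℝ × ℝ)) \ {Tm c}) := by
          apply subset_convexHull
          refine ⟨Finset.mem_of_mem_erase hA, ?_⟩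
          intro h
          apply hc0
          apply hinj
          rw [t00]
          exact (mem_singleton_iff.1 h).symm
        have k3 : B ∈ convexHull ℝ ((S : Set (ℝ × ℝ)) \ {Tm c}) := by
          apply subset_convexHull
          refine ⟨Finset.mem_of_mem_erase hB, ?_⟩
          intro h
          apply hc1
          apply hinj
          rw [t01]
          exact (mem_singleton_iff.1 h).symm
        -- `Tm c = c.1 v + c.2 B + (1 - c.1 - c.2) A`
        have hcv : Convex ℝ (convexHull ℝ ((S : Set (ℝ × ℝ)) \ {Tm c})) := convex_convexHull ℝ _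
        have h5 := hcv.sum_mem (t := (Finset.univ : Finset (Fin 3)))
          (w := ![c.1, c.2, 1 - c.1 - c.2]) (z := ![v, B, A])
          (by
            intro i _
            fin_cases i
            · exact hcon
            · exact h1.1
            · show 0 ≤ 1 - c.1 - c.2
              linarith [h1.2])
          (by
            simp [Fin.sum_univ_three])
          (by
            intro i _
            fin_cases i
            · exact k1
            · exact k3
            · exact k2)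
        have h6 : ∑ i : Fin 3, (![c.1, c.2, 1 - c.1 - c.2] i) • (![v, B, A] i) = Tm c := by
          rw [Fin.sum_univ_three, hTm, T_apply]
          ext
          · simp
            ring
          · simp
            ring
        rwa [h6] at h5
      rw [← hhull]
      rw [← hhull] at hv
      refine hp.aff _ _ _ _ A _ hD hKc ?_
      refine step_norm hp S1 (by omega) ((hmem _).2 (by rw [t00]; exact hA))
        ((hmem _).2 (by rw [t01]; exact hB)) hco hneg ?_ ?_
      · intro S'' hS'' hv''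
        exact ih S'' (by omega) hv''
      · intro h0
        apply hv
        rw [hTm, T_volume hD A hKm, h0, mul_zero]

theorem main : S_POLY := by
  intro G h1 h2 h3 S hv
  have hT : ∀ (α β γ δ : ℝ) (b : ℝ × ℝ), T α β γ δ b = TT α β γ δ b := by
    intro α β γ δ b
    funext x
    rfl
  have hs : ∀ t : ℝ, shear t = sh ((0, 1) : ℝ × ℝ) (fun x => max x.1 0) t := by
    intro t
    funext x
    unfold shear sh
    ext
    · simp
    · simp
  refine good_poly (G := G) ⟨h1, ?_, ?_⟩ S.card S le_rfl hv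
  · intro α β γ δ b K hD hK hG
    rw [hT]
    exact h2 α β γ δ b K hD hK hG
  · intro K t0 t1 hK h0 h1' g0 g1
    rw [hs] at g0 g1
    exact h3 K t0 t1 hK h0 h1' g0 g1

end Pool.Agent.H58.LM.T.POLY
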