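import Pool.Agent.H58.LM.Stm

/-! # Project LM, stub RTRIV (helper44) -/

set_option autoImplicit false

open MeasureTheory Set Filter
open scoped ENNReal Topology

namespace Pool.Agent.H58.LM.T.RTRIV

open Pool.Agent.H58.LM

theorem meas_simp (n : ℕ) : MeasurableSet (Simp n) := by
  have h : IsClosed (Simp n) := by
    have h1 : Simp n = (⋂ i, {z : Fin n → ℝ | 0 ≤ z i}) ∩ {z | ∑ i, z i ≤ 1} := by
      ext z
      simp [Simp]
    rw [h1]
    refine IsClosed.inter (isClosed_iInter fun i => isClosed_le continuous_const (continuous_apply i)) ?_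
    exact isClosed_le (continuous_finsetSum _ fun i _ => continuous_apply i) continuous_const
  exact h.measurableSet

theorem good_simp (p : ℝ) (n : ℕ) : Good p (Simp n) := fun ξ => iInf_le _ ξ

/-- the trivial family -/
noncomputable def C0 (X : Type) [NormedAddCommGroup X] [NormedSpace ℝ X] [MeasurableSpace X] :
    Ctx (Fin 0 → ℝ) X where
  D := univ
  c := fun _ => 0
  lam := fun _ => 1
  mD := MeasurableSet.univ
  bD := (Set.subsingleton_univ (α := Fin 0 → ℝ)).finite.isBounded
  mc := measurable_const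
  bc := ⟨0, fun _ _ => by simp⟩
  ml := measurable_const
  bl := ⟨1, fun _ _ => le_rfl⟩
  pl := fun _ _ => one_pos

theorem fill_eq (X : Type) [NormedAddCommGroup X] [NormedSpace ℝ X] [MeasurableSpace X] (K : Set X) :
    (C0 X).fill K =
      (fun x => (ContinuousLinearEquiv.uniqueProd ℝ X (Fin 0 → ℝ)).symm x + 0) '' K := by
  ext z
  constructor
  · rintro ⟨-, k, hk, hz⟩
    refine ⟨k, hk, ?_⟩
    have hz' : z.2 = k := by
      rw [hz]
      show (0 : X) + (1 : ℝ) • k = k
      rw [one_smul, zero_add]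
    ext1
    · exact Subsingleton.elim _ _
    · rw [hz']
      show k + 0 = k
      rw [add_zero]
  · rintro ⟨k, hk, rfl⟩
    refine ⟨mem_univ _, k, hk, ?_⟩
    show k + 0 = (0 : X) + (1 : ℝ) • k
    rw [one_smul, zero_add, add_zero]

theorem main (hE : S_EQV) : S_RTRIV := by
  intro p hp X _ _ _ _ _ K hK
  refine ⟨fun h W _ _ _ _ _ C hC => hC K h, fun h => ?_⟩
  have h1 : GoodE p ((C0 X).fill K) := by
    refine h (Fin 0 → ℝ) (C0 X) ?_
    rintro T ⟨n, A, a, rfl⟩
    rw [fill_eq]
    have e : (fun x => (ContinuousLinearEquiv.uniqueProd ℝ X (Fin 0 → ℝ)).symm x + 0) ''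
        ((fun x => A x + a) '' Simp n) =
        (fun x => (A.trans (ContinuousLinearEquiv.uniqueProd ℝ X (Fin 0 → ℝ)).symm) x +
          (ContinuousLinearEquiv.uniqueProd ℝ X (Fin 0 → ℝ)).symm a) '' Simp n := by
      rw [Set.image_image]
      refine Set.image_congr fun x _ => ?_
      rw [map_add, add_zero]
      rfl
    rw [e]
    have h2 : GoodE p (Simp n) := by
      refine (hE p hp (Fin n → ℝ) (Fin n → ℝ) (Simp n) (meas_simp n)).1 n
        (ContinuousLinearEquiv.refl ℝ _) ?_
      have e2 : (ContinuousLinearEquiv.refl ℝ (Fin n → ℝ)) '' Simp n = Simp n := by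
        ext x
        simp
      rw [e2]
      exact good_simp p n
    exact (hE p hp (Fin n → ℝ) ((Fin 0 → ℝ) × X) (Simp n) (meas_simp n)).2.1 _ _ h2
  rw [fill_eq] at h1
  exact (hE p hp X ((Fin 0 → ℝ) × X) K hK).2.2 _ _ h1

end Pool.Agent.H58.LM.T.RTRIV
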