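import Pool.Agent.H58.LM.T.EQV
import Pool.Agent.H58.LM.T.RTRIV

/-! # Project LM, stub RAFF (helper44) -/

set_option autoImplicit false

open MeasureTheory Set Filter
open scoped ENNReal Topology

namespace Pool.Agent.H58.LM.T.RAFF

open Pool.Agent.H58.LM

section

variable {X Y W : Type} [NormedAddCommGroup X] [NormedSpace ℝ X] [FiniteDimensional ℝ X]
  [MeasurableSpace X] [BorelSpace X] [NormedAddCommGroup Y] [NormedSpace ℝ Y]
  [FiniteDimensional ℝ Y] [MeasurableSpace Y] [BorelSpace Y]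
  [NormedAddCommGroup W] [NormedSpace ℝ W] [MeasurableSpace W]

/-- the family over `X` which corresponds to the family over `Y` -/
noncomputable def back (A : X ≃L[ℝ] Y) (a : Y) (C : Ctx W Y) : Ctx W X where
  D := C.D
  c := fun w => A.symm (C.c w + C.lam w • a)
  lam := C.lam
  mD := C.mD
  bD := C.bD
  mc := A.symm.continuous.measurable.comp (C.mc.add (C.ml.smul_const a))
  bc := by
    obtain ⟨M, hM⟩ := C.bc
    obtain ⟨M', hM'⟩ := C.bl
    refine ⟨‖(A.symm : Y →L[ℝ] X)‖ * (M + M' * ‖a‖), fun w hw => ?_⟩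
    refine ((A.symm : Y →L[ℝ] X).le_opNorm _).trans
      (mul_le_mul_of_nonneg_left ?_ (norm_nonneg _))
    refine (norm_add_le _ _).trans (add_le_add (hM w hw) ?_)
    rw [norm_smul, Real.norm_of_nonneg (C.pl w hw).le]
    exact mul_le_mul_of_nonneg_right (hM' w hw) (norm_nonneg _)
  ml := C.ml
  bl := C.bl
  pl := C.pl

theorem fill_back (A : X ≃L[ℝ] Y) (a : Y) (C : Ctx W Y) (T : Set X) :
    C.fill ((fun x => A x + a) '' T) =
      (fun z => ((ContinuousLinearEquiv.refl ℝ W).prodCongr A) z + 0) '' (back A a C).fill T := by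
  ext z
  constructor
  · rintro ⟨h1, y, ⟨k, hk, rfl⟩, h2⟩
    refine ⟨(z.1, A.symm z.2), ⟨h1, k, hk, ?_⟩, ?_⟩
    · show A.symm z.2 = A.symm (C.c z.1 + C.lam z.1 • a) + C.lam z.1 • k
      apply A.injective
      rw [map_add, map_smul, A.apply_symm_apply, A.apply_symm_apply, h2]
      simp only [smul_add]
      abel
    · show (z.1, A (A.symm z.2)) + 0 = z
      rw [A.apply_symm_apply, add_zero]
  · rintro ⟨⟨w, x⟩, ⟨h1, k, hk, h2⟩, rfl⟩
    have h2' : x = A.symm (C.c w + C.lam w • a) + C.lam w • k := h2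
    refine ⟨?_, A k + a, ⟨k, hk, rfl⟩, ?_⟩
    · show w + 0 ∈ C.D
      rw [add_zero]
      exact h1
    · show A x + 0 = C.c (w + 0) + C.lam (w + 0) • (A k + a)
      rw [add_zero, add_zero, h2', map_add, map_smul, A.apply_symm_apply]
      simp only [smul_add]
      abel

end

theorem main (hE : S_EQV) (hF : S_FILL) : S_RAFF := by
  intro p hp X Y _ _ _ _ _ _ _ _ _ _ A a K hK hR W _ _ _ _ _ C hC
  obtain ⟨hm, -, -⟩ := hF W X (back A a C)
  rw [fill_back]
  refine (hE p hp (W × X) (W × Y) _ (hm K hK)).2.1 _ _ (hR W (back A a C) ?_)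
  rintro T ⟨n, B, b, rfl⟩
  have hT : MeasurableSet ((fun x => B x + b) '' Simp n) := EQV.meas_aff B b (RTRIV.meas_simp n)
  refine (hE p hp (W × X) (W × Y) _ (hm _ hT)).2.2 ((ContinuousLinearEquiv.refl ℝ W).prodCongr A) 0 ?_
  rw [← fill_back]
  refine hC _ ⟨n, B.trans A, A b + a, ?_⟩
  rw [Set.image_image]
  refine Set.image_congr fun x _ => ?_
  show A (B x + b) + a = A (B x) + (A b + a)
  rw [map_add, add_assoc]

end Pool.Agent.H58.LM.T.RAFF
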